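import Pool.Agent.Helper51.GAdicDefs

set_option autoImplicit false

namespace Pool.Agent.Helper51.GAdic

open Finset

variable {g : ℕ → ℕ}

namespace IsGAdic

theorem pos (hg : IsGAdic g) (n : ℕ) : 0 < g n := by
  have h := hg.mono.monotone (Nat.zero_le n)
  rw [hg.zero] at h
  omega

theorem lt_succ (hg : IsGAdic g) (n : ℕ) : g n < g (n + 1) := hg.mono (Nat.lt_succ_self n)

theorem two_mul_le (hg : IsGAdic g) (n : ℕ) : 2 * g n ≤ g (n + 1) := by
  obtain ⟨k, hk⟩ := hg.dvd n
  have h1 := hg.lt_succ n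
  have h2 := hg.pos n
  rcases k with _ | _ | k
  · simp at hk; omega
  · simp at hk; omega
  · rw [hk]; nlinarith

theorem dvd_of_le (hg : IsGAdic g) {p q : ℕ} (h : p ≤ q) : g p ∣ g q := by
  induction h with
  | refl => exact dvd_rfl
  | step _ ih => exact ih.trans (hg.dvd _)

theorem lt_self (hg : IsGAdic g) (n : ℕ) : n < g n := by
  induction n with
  | zero => rw [hg.zero]; exact Nat.one_pos
  | succ n ih => have := hg.lt_succ n; omega

theorem le_of_le (hg : IsGAdic g) {p q : ℕ} (h : p ≤ q) : g p ≤ g q := hg.mono.monotone h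

theorem mod_mod (hg : IsGAdic g) (n : ℕ) {p q : ℕ} (h : p ≤ q) : n % g q % g p = n % g p :=
  Nat.mod_mod_of_dvd n (hg.dvd_of_le h)

theorem mod_le_mod (hg : IsGAdic g) (n : ℕ) {p q : ℕ} (h : p ≤ q) : n % g p ≤ n % g q := by
  rw [← hg.mod_mod n h]
  exact Nat.mod_le _ _

end IsGAdic

/-- the digit piece of `n` at position `q` : `n % g (q+1) - n % g q` -/
def dp (g : ℕ → ℕ) (n q : ℕ) : ℕ := n % g (q + 1) - n % g q

theorem dp_dvd (hg : IsGAdic g) (n q : ℕ) : g q ∣ dp g n q := by
  unfold dp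
  rw [← hg.mod_mod n (Nat.le_succ q)]
  exact (Nat.dvd_sub_mod _)

theorem dp_le (hg : IsGAdic g) (n q : ℕ) : dp g n q + g q ≤ g (q + 1) := by
  have h1 := dp_dvd hg n q
  have h2 : g q ∣ g (q + 1) := hg.dvd q
  have h3 : dp g n q < g (q + 1) := by
    unfold dp
    have := Nat.mod_lt n (hg.pos (q + 1))
    omega
  obtain ⟨a, ha⟩ := h1
  obtain ⟨b, hb⟩ := h2
  rw [ha, hb] at h3 ⊢
  have hp := hg.pos q
  have : a < b := lt_of_mul_lt_mul_left h3 (Nat.zero_le _)
  nlinarith

theorem dp_add (hg : IsGAdic g) (n q : ℕ) : n % g q + dp g n q = n % g (q + 1) := by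
  unfold dp
  have := hg.mod_le_mod n (Nat.le_succ q)
  simp only [Nat.succ_eq_add_one] at this
  omega

theorem sum_dp (hg : IsGAdic g) (n p : ℕ) : ∑ q ∈ range p, dp g n q = n % g p := by
  induction p with
  | zero => simp [hg.zero, Nat.mod_one]
  | succ p ih => rw [sum_range_succ, ih, dp_add hg]

theorem sum_lt (hg : IsGAdic g) (c : ℕ → ℕ) (hc : ∀ q, c q + g q ≤ g (q + 1)) (p : ℕ) :
    ∑ q ∈ range p, c q < g p := by
  induction p with
  | zero => simp [hg.zero]
  | succ p ih => rw [sum_range_succ]; have := hc p; omega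

theorem sum_mod (hg : IsGAdic g) (c : ℕ → ℕ) (hc : ∀ q, c q + g q ≤ g (q + 1))
    (hd : ∀ q, g q ∣ c q) {p K : ℕ} (h : p ≤ K) :
    (∑ q ∈ range K, c q) % g p = ∑ q ∈ range p, c q := by
  rw [← Finset.sum_range_add_sum_Ico _ h]
  have h1 : g p ∣ ∑ q ∈ Ico p K, c q := by
    apply Finset.dvd_sum
    intro q hq
    exact (hg.dvd_of_le (Finset.mem_Ico.1 hq).1).trans (hd q)
  obtain ⟨m, hm⟩ := h1
  rw [hm, Nat.add_mul_mod_self_left]
  exact Nat.mod_eq_of_lt (sum_lt hg c hc p)

/-- `n` is supported on `W`. -/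
def Supp (g : ℕ → ℕ) (W : Set ℕ) (n : ℕ) : Prop := ∀ j, j ∉ W → n % g (j + 1) = n % g j

theorem Supp.zero (W : Set ℕ) : Supp g W 0 := fun j _ => by simp

theorem supp_sum (hg : IsGAdic g) (c : ℕ → ℕ) (hc : ∀ q, c q + g q ≤ g (q + 1))
    (hd : ∀ q, g q ∣ c q) (W : Set ℕ) (hW : ∀ q, q ∉ W → c q = 0) (K : ℕ) :
    Supp g W (∑ q ∈ range K, c q) := by
  intro j hj
  rcases Nat.lt_or_ge j K with h | h
  · rw [sum_mod hg c hc hd (p := j + 1) h, sum_mod hg c hc hd h.le, sum_range_succ, hW j hj]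
    simp
  · have h1 := sum_lt hg c hc K
    have h2 := hg.le_of_le h
    have h3 := hg.le_of_le (h.trans (Nat.le_succ j))
    rw [Nat.mod_eq_of_lt (lt_of_lt_of_le h1 h2), Nat.mod_eq_of_lt (lt_of_lt_of_le h1 h3)]

theorem Supp.dp_eq_zero {W : Set ℕ} {n : ℕ} (h : Supp g W n) {j : ℕ} (hj : j ∉ W) :
    dp g n j = 0 := by
  unfold dp
  rw [h j hj]; simp

theorem mem_AG_iff (hg : IsGAdic g) (W : Set ℕ) (n : ℕ) : n ∈ AG g W ↔ n ≠ 0 ∧ Supp g W n := by
  constructor
  · rintro ⟨F, x, hF, hFW, hx, rfl⟩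
    constructor
    · intro h0
      obtain ⟨j, hj⟩ := hF
      have := (Finset.sum_eq_zero_iff.1 h0) j hj
      have h1 := (hx j hj).1
      have h2 := hg.pos j
      rcases Nat.mul_eq_zero.1 this with h | h <;> omega
    · classical
      let c : ℕ → ℕ := fun q => if q ∈ F then x q * g q else 0
      have hc : ∀ q, c q + g q ≤ g (q + 1) := by
        intro q
        simp only [c]
        split_ifs with h
        · have h1 := (hx q h).2
          have h2 : (x q + 1) * g q ≤ g (q + 1) / g q * g q := Nat.mul_le_mul_right _ h1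
          rw [Nat.div_mul_cancel (hg.dvd q)] at h2
          nlinarith
        · have := hg.lt_succ q; omega
      have hd : ∀ q, g q ∣ c q := by
        intro q
        simp only [c]
        split_ifs with h
        · exact Dvd.intro_left _ rfl
        · exact dvd_zero _
      obtain ⟨K, hK⟩ : ∃ K, F ⊆ range K := F.exists_nat_subset_range
      have hs : ∑ j ∈ F, x j * g j = ∑ q ∈ range K, c q := by
        simp only [c]
        rw [← Finset.sum_filter]
        congr 1
        ext q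
        simp only [mem_filter]
        exact ⟨fun h => ⟨hK h, h⟩, fun h => h.2⟩
      rw [hs]
      apply supp_sum hg c hc hd
      intro q hq
      simp only [c]
      rw [if_neg]
      intro h
      exact hq (hFW q h)
  · rintro ⟨h0, hs⟩
    refine ⟨(range n).filter (fun q => dp g n q ≠ 0), fun q => dp g n q / g q, ?_, ?_, ?_, ?_⟩
    · by_contra hne
      rw [Finset.not_nonempty_iff_eq_empty, Finset.filter_eq_empty_iff] at hne
      have h1 : ∑ q ∈ range n, dp g n q = 0 := by
        apply Finset.sum_eq_zero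
        intro q hq
        have := hne hq
        simpa using this
      rw [sum_dp hg, Nat.mod_eq_of_lt (hg.lt_self n)] at h1
      exact h0 h1
    · intro j hj
      by_contra hjW
      exact (mem_filter.1 hj).2 (hs.dp_eq_zero hjW)
    · intro j hj
      have h1 := (mem_filter.1 hj).2
      have h2 := dp_dvd hg n j
      have h3 := dp_le hg n j
      have hp := hg.pos j
      obtain ⟨a, ha⟩ := h2
      obtain ⟨b, hb⟩ := hg.dvd j
      rw [ha] at h1 h3
      show 1 ≤ dp g n j / g j ∧ dp g n j / g j < g (j + 1) / g j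
      rw [ha, hb, Nat.mul_div_cancel_left _ hp, Nat.mul_div_cancel_left _ hp]
      rw [hb] at h3
      constructor
      · rcases a with _ | a
        · simp at h1
        · omega
      · by_contra hcon
        have : g j * b ≤ g j * a := Nat.mul_le_mul_left _ (by omega)
        omega
    · have h1 : ∀ q, dp g n q / g q * g q = dp g n q := fun q => Nat.div_mul_cancel (dp_dvd hg n q)
      simp only [h1]
      rw [Finset.sum_filter_ne_zero, sum_dp hg, Nat.mod_eq_of_lt (hg.lt_self n)]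

/-- `M_W(p)`: the largest element of `A_𝒢(W) ∪ {0}` below `g p`. -/
noncomputable def M (g : ℕ → ℕ) (W : Set ℕ) (p : ℕ) : ℕ :=
  ∑ q ∈ range p, W.indicator (fun q => g (q + 1) - g q) q

theorem M_zero (W : Set ℕ) : M g W 0 = 0 := by simp [M]

theorem M_succ_mem {W : Set ℕ} {p : ℕ} (h : p ∈ W) : M g W (p + 1) = M g W p + (g (p + 1) - g p) := by
  unfold M
  rw [sum_range_succ, Set.indicator_of_mem h]

theorem M_succ_notMem {W : Set ℕ} {p : ℕ} (h : p ∉ W) : M g W (p + 1) = M g W p := by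
  unfold M
  rw [sum_range_succ, Set.indicator_of_notMem h, add_zero]

theorem M_mono (W : Set ℕ) {p q : ℕ} (h : p ≤ q) : M g W p ≤ M g W q := by
  unfold M
  exact Finset.sum_le_sum_of_subset (Finset.range_mono h)

theorem M_c1 (hg : IsGAdic g) (W : Set ℕ) (q : ℕ) :
    W.indicator (fun q => g (q + 1) - g q) q + g q ≤ g (q + 1) := by
  have := hg.lt_succ q
  by_cases h : q ∈ W
  · rw [Set.indicator_of_mem h]; omega
  · rw [Set.indicator_of_notMem h]; omega

theorem M_c2 (hg : IsGAdic g) (W : Set ℕ) (q : ℕ) :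
    g q ∣ W.indicator (fun q => g (q + 1) - g q) q := by
  by_cases h : q ∈ W
  · rw [Set.indicator_of_mem h]; exact Nat.dvd_sub (hg.dvd q) dvd_rfl
  · rw [Set.indicator_of_notMem h]; exact dvd_zero _

theorem M_lt (hg : IsGAdic g) (W : Set ℕ) (p : ℕ) : M g W p < g p :=
  sum_lt hg _ (M_c1 hg W) p

theorem M_mod (hg : IsGAdic g) (W : Set ℕ) {p K : ℕ} (h : p ≤ K) : M g W K % g p = M g W p :=
  sum_mod hg _ (M_c1 hg W) (M_c2 hg W) h

theorem supp_M (hg : IsGAdic g) (W : Set ℕ) (p : ℕ) : Supp g W (M g W p) :=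
  supp_sum hg _ (M_c1 hg W) (M_c2 hg W) W (fun _ hq => Set.indicator_of_notMem hq _) p

theorem Supp.mod_le {W : Set ℕ} (hg : IsGAdic g) {n : ℕ} (h : Supp g W n) (p : ℕ) :
    n % g p ≤ M g W p := by
  rw [← sum_dp hg]
  unfold M
  apply Finset.sum_le_sum
  intro q _
  by_cases hq : q ∈ W
  · rw [Set.indicator_of_mem hq]
    have := dp_le hg n q
    omega
  · rw [h.dp_eq_zero hq]; exact Nat.zero_le _

theorem M_const {W : Set ℕ} {u v : ℕ} (h : u ≤ v) (hW : ∀ q, u ≤ q → q < v → q ∉ W) :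
    M g W v = M g W u := by
  induction h with
  | refl => rfl
  | @step m hm ih =>
    rw [M_succ_notMem (hW m hm (Nat.lt_succ_self m)), ih (fun q h1 h2 => hW q h1 (Nat.lt_succ_of_lt h2))]

/-- lower bound of `M` on a block -/
theorem M_block (hg : IsGAdic g) {W : Set ℕ} {u v : ℕ} (h : u ≤ v) (hW : ∀ q, u ≤ q → q < v → q ∈ W) :
    M g W v = M g W u + (g v - g u) := by
  induction h with
  | refl => simp
  | @step m hm ih =>
    rw [M_succ_mem (hW m hm (Nat.lt_succ_self m)), ih (fun q h1 h2 => hW q h1 (Nat.lt_succ_of_lt h2))]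
    have h1 := hg.le_of_le hm
    have h2 := hg.lt_succ m
    simp only [Nat.succ_eq_add_one]
    omega

theorem supp_g (hg : IsGAdic g) {W : Set ℕ} {k : ℕ} (hk : k ∈ W) : Supp g W (g k) := by
  intro j hj
  rcases Nat.lt_trichotomy j k with h | h | h
  · rw [Nat.mod_eq_zero_of_dvd (hg.dvd_of_le h), Nat.mod_eq_zero_of_dvd (hg.dvd_of_le h.le)]
  · subst h; exact absurd hk hj
  · rw [Nat.mod_eq_of_lt (hg.mono h), Nat.mod_eq_of_lt (hg.mono (Nat.lt_succ_of_lt h))]

/-- top position of a positive integer -/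
theorem exists_top (hg : IsGAdic g) {n : ℕ} (hn : n ≠ 0) : ∃ q, g q ≤ n ∧ n < g (q + 1) := by
  classical
  have h : ∃ p, n < g p := ⟨n, hg.lt_self n⟩
  have h0 : Nat.find h ≠ 0 := by
    intro h0
    have := Nat.find_spec h
    rw [h0, hg.zero] at this
    omega
  obtain ⟨q, hq⟩ := Nat.exists_eq_succ_of_ne_zero h0
  refine ⟨q, ?_, ?_⟩
  · by_contra hcon
    have := Nat.find_min' h (not_le.1 hcon)
    omega
  · have := Nat.find_spec h
    rw [hq] at this
    exact this

theorem Supp.top_mem (_hg : IsGAdic g) {W : Set ℕ} {n q : ℕ} (hs : Supp g W n) (h1 : g q ≤ n)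
    (h2 : n < g (q + 1)) (_hn : n ≠ 0) : q ∈ W := by
  by_contra hq
  have := hs q hq
  rw [Nat.mod_eq_of_lt h2] at this
  have h3 := Nat.mod_lt n (_hg.pos q)
  omega

theorem Supp.mod {W : Set ℕ} (hg : IsGAdic g) {n : ℕ} (hs : Supp g W n) (p : ℕ) :
    Supp g W (n % g p) := by
  intro j hj
  rcases Nat.lt_or_ge j p with h | h
  · rw [hg.mod_mod n h, hg.mod_mod n h.le, hs j hj]
  · have h1 := Nat.mod_lt n (hg.pos p)
    rw [Nat.mod_eq_of_lt (lt_of_lt_of_le h1 (hg.le_of_le h)),
      Nat.mod_eq_of_lt (lt_of_lt_of_le h1 (hg.le_of_le (h.trans (Nat.le_succ j))))]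

/-- adding a multiple of `g r` does not change the low digits; if all positions outside `W` are
below `r` the support condition only sees `n % g r`. -/
theorem supp_of_cofinite (hg : IsGAdic g) {W : Set ℕ} {r : ℕ} (hr : ∀ j, r ≤ j → j ∈ W) {m n : ℕ}
    (hs : Supp g W n) (hmn : m % g r = n % g r) : Supp g W m := by
  intro j hj
  have hjr : j < r := by
    by_contra h
    exact hj (hr j (not_lt.1 h))
  rw [← hg.mod_mod m (p := j + 1) hjr, ← hg.mod_mod m hjr.le, hmn, hg.mod_mod n hjr, hg.mod_mod n hjr.le,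
    hs j hj]

/-- removing the top unit -/
theorem supp_sub_top (hg : IsGAdic g) {W : Set ℕ} {n k : ℕ} (hs : Supp g W n) (h1 : g k ≤ n)
    (h2 : n < g (k + 1)) : Supp g W (n - g k) := by
  intro j hj
  rcases Nat.lt_or_ge j k with h | h
  · have e1 : (n - g k) % g (j + 1) = n % g (j + 1) := by
      obtain ⟨m, hm⟩ := hg.dvd_of_le (p := j + 1) h
      conv_rhs => rw [← Nat.sub_add_cancel h1, hm, Nat.add_mul_mod_self_left]
      rw [hm]
    have e2 : (n - g k) % g j = n % g j := by
      obtain ⟨m, hm⟩ := hg.dvd_of_le h.le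
      conv_rhs => rw [← Nat.sub_add_cancel h1, hm, Nat.add_mul_mod_self_left]
      rw [hm]
    rw [e1, e2, hs j hj]
  · have hkW : k ∈ W := hs.top_mem hg h1 h2 (by have := hg.pos k; omega)
    have hjk : k + 1 ≤ j := by
      rcases Nat.lt_or_ge k j with h' | h'
      · exact h'
      · have : j = k := le_antisymm h' h
        subst this; exact absurd hkW hj
    have h3 : g (k + 1) ≤ g j := hg.le_of_le hjk
    have h4 : g (k + 1) ≤ g (j + 1) := hg.le_of_le (hjk.trans (Nat.le_succ j))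
    rw [Nat.mod_eq_of_lt (by omega), Nat.mod_eq_of_lt (by omega)]

/-- adding a number with high support -/
theorem supp_add_high (hg : IsGAdic g) {W : Set ℕ} {x y r : ℕ} (hx : Supp g W x) (hy : Supp g W y)
    (hxr : x < g r) (hyr : g r ∣ y) : Supp g W (x + y) := by
  intro j hj
  rcases Nat.lt_or_ge j r with h | h
  · obtain ⟨m, hm⟩ := (hg.dvd_of_le (p := j + 1) h).trans hyr
    obtain ⟨m', hm'⟩ := (hg.dvd_of_le h.le).trans hyr
    have e1 : (x + y) % g (j + 1) = x % g (j + 1) := by rw [hm, Nat.add_mul_mod_self_left]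
    have e2 : (x + y) % g j = x % g j := by rw [hm', Nat.add_mul_mod_self_left]
    rw [e1, e2, hx j hj]
  · have key : ∀ i, r ≤ i → (x + y) % g i = x + y % g i := by
      intro i hi
      have h1 : x + y % g i < g i := by
        have h2 : g r ∣ y % g i := by
          rw [Nat.dvd_mod_iff (hg.dvd_of_le hi)]
          exact hyr
        have h3 : g r ∣ g i := hg.dvd_of_le hi
        have h4 := Nat.mod_lt y (hg.pos i)
        obtain ⟨a, ha⟩ := h2
        obtain ⟨b, hb⟩ := h3
        rw [ha, hb] at h4 ⊢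
        have : a < b := lt_of_mul_lt_mul_left h4 (Nat.zero_le _)
        nlinarith
      rw [Nat.add_mod, Nat.mod_eq_of_lt (lt_of_lt_of_le hxr (hg.le_of_le hi)),
        Nat.mod_eq_of_lt h1]
    rw [key j h, key (j + 1) (h.trans (Nat.le_succ j)), hy j hj]

/-- component of `n` on `W` -/
noncomputable def comp (g : ℕ → ℕ) (W : Set ℕ) (n : ℕ) : ℕ :=
  ∑ q ∈ range n, W.indicator (dp g n) q

theorem supp_comp (hg : IsGAdic g) (W : Set ℕ) (n : ℕ) : Supp g W (comp g W n) := by
  apply supp_sum hg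
  · intro q
    by_cases h : q ∈ W
    · rw [Set.indicator_of_mem h]; exact dp_le hg n q
    · rw [Set.indicator_of_notMem h]; have := hg.lt_succ q; omega
  · intro q
    by_cases h : q ∈ W
    · rw [Set.indicator_of_mem h]; exact dp_dvd hg n q
    · rw [Set.indicator_of_notMem h]; exact dvd_zero _
  · intro q hq; exact Set.indicator_of_notMem hq _

section Partition

variable {h : ℕ} {W : Fin h → Set ℕ}

theorem IsPartition.sum_indicator (hW : IsPartition W) (c : ℕ → ℕ) (q : ℕ) :
    ∑ i, (W i).indicator c q = c q := by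
  obtain ⟨i, hi⟩ := hW.cover q
  rw [Finset.sum_eq_single i]
  · exact Set.indicator_of_mem hi _
  · intro j _ hj
    apply Set.indicator_of_notMem
    intro hjq
    exact Set.disjoint_left.1 (hW.disjoint j i hj) hjq hi
  · intro hn; exact absurd (mem_univ i) hn

theorem IsPartition.sum_comp (hg : IsGAdic g) (hW : IsPartition W) (n : ℕ) :
    ∑ i, comp g (W i) n = n := by
  unfold comp
  rw [Finset.sum_comm]
  simp only [hW.sum_indicator]
  rw [sum_dp hg, Nat.mod_eq_of_lt (hg.lt_self n)]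

theorem IsPartition.sum_M (hg : IsGAdic g) (hW : IsPartition W) (p : ℕ) :
    ∑ i, M g (W i) p = g p - 1 := by
  unfold M
  rw [Finset.sum_comm]
  simp only [hW.sum_indicator]
  rw [Finset.sum_range_tsub hg.mono.monotone, hg.zero]

/-- the residue of a sum of supported components -/
theorem IsPartition.sum_mod_eq (hg : IsGAdic g) (hW : IsPartition W) (x : Fin h → ℕ)
    (hx : ∀ i, Supp g (W i) (x i)) (p : ℕ) : (∑ i, x i) % g p = ∑ i, x i % g p := by
  rw [Finset.sum_nat_mod]
  apply Nat.mod_eq_of_lt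
  have h1 : ∑ i, x i % g p ≤ ∑ i, M g (W i) p := Finset.sum_le_sum (fun i _ => (hx i).mod_le hg p)
  rw [hW.sum_M hg] at h1
  have := hg.pos p
  omega

theorem IsPartition.unique (hg : IsGAdic g) (hW : IsPartition W) (x y : Fin h → ℕ)
    (hx : ∀ i, Supp g (W i) (x i)) (hy : ∀ i, Supp g (W i) (y i))
    (hxy : ∑ i, x i = ∑ i, y i) (i : Fin h) : x i = y i := by
  have key : ∀ p i, x i % g p = y i % g p := by
    intro p
    induction p with
    | zero => intro i; simp [hg.zero, Nat.mod_one]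
    | succ p ih =>
      have h1 : ∑ i, x i % g (p + 1) = ∑ i, y i % g (p + 1) := by
        rw [← hW.sum_mod_eq hg x hx, ← hW.sum_mod_eq hg y hy, hxy]
      obtain ⟨l, hl⟩ := hW.cover p
      have h2 : ∀ i, i ≠ l → x i % g (p + 1) = y i % g (p + 1) := by
        intro i hi
        have hpi : p ∉ W i := fun hp => Set.disjoint_left.1 (hW.disjoint i l hi) hp hl
        rw [hx i p hpi, hy i p hpi, ih i]
      intro i
      by_cases hi : i = l
      · subst hi
        rw [← Finset.add_sum_erase _ _ (mem_univ i), ← Finset.add_sum_erase univ _ (mem_univ i)] at h1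
        have h3 : ∑ j ∈ univ.erase i, x j % g (p + 1) = ∑ j ∈ univ.erase i, y j % g (p + 1) :=
          Finset.sum_congr rfl (fun j hj => h2 j (Finset.ne_of_mem_erase hj))
        omega
      · exact h2 i hi
  have h1 := key (x i + y i) i
  have h2 := hg.lt_self (x i + y i)
  rw [Nat.mod_eq_of_lt (by omega), Nat.mod_eq_of_lt (by omega)] at h1
  exact h1

theorem mem_A_iff (hg : IsGAdic g) (n : ℕ) : n ∈ A g W ↔ n = 0 ∨ ∃ i, n ≠ 0 ∧ Supp g (W i) n := by
  unfold A
  simp only [Set.mem_union, Set.mem_singleton_iff, Set.mem_iUnion, mem_AG_iff hg]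

theorem IsAsymptoticBasis.mono {h : ℕ} {A B : Set ℕ} (hAB : A ⊆ B) (hA : IsAsymptoticBasis h A) :
    IsAsymptoticBasis h B := by
  obtain ⟨N, hN⟩ := hA
  refine ⟨N, fun n hn => ?_⟩
  obtain ⟨f, hf, hs⟩ := hN n hn
  exact ⟨f, fun k => hAB (hf k), hs⟩

end Partition

end Pool.Agent.Helper51.GAdic
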