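import Mathlib

set_option autoImplicit false

namespace Pool.Agent.Helper51.GAdic

/-- `g` is a `𝒢`-adic sequence: `g 0 = 1`, `g` is strictly increasing and `g i ∣ g (i+1)`. -/
structure IsGAdic (g : ℕ → ℕ) : Prop where
  zero : g 0 = 1
  mono : StrictMono g
  dvd : ∀ i, g i ∣ g (i + 1)

/-- `A_𝒢(W)`: the numbers `∑_{j ∈ F} x_j g_j` with `F ⊆ W` finite and nonempty and
`1 ≤ x_j ≤ d_{j+1} - 1`, where `d_{j+1} = g_{j+1} / g_j`. -/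
def AG (g : ℕ → ℕ) (W : Set ℕ) : Set ℕ :=
  {n | ∃ (F : Finset ℕ) (x : ℕ → ℕ), F.Nonempty ∧ (∀ j ∈ F, j ∈ W) ∧
    (∀ j ∈ F, 1 ≤ x j ∧ x j < g (j + 1) / g j) ∧ n = ∑ j ∈ F, x j * g j}

/-- `A` is an asymptotic basis of order `h`: every large integer is a sum of `h` elements
of `A`, repetitions allowed. -/
def IsAsymptoticBasis (h : ℕ) (A : Set ℕ) : Prop :=
  ∃ N : ℕ, ∀ n, N ≤ n → ∃ f : Fin h → ℕ, (∀ k, f k ∈ A) ∧ ∑ k, f k = n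

/-- `A` is a minimal asymptotic basis of order `h`. -/
def IsMinimalAsymptoticBasis (h : ℕ) (A : Set ℕ) : Prop :=
  IsAsymptoticBasis h A ∧ ∀ B : Set ℕ, B ⊂ A → ¬ IsAsymptoticBasis h B

/-- `W = (W_0, …, W_{h-1})` is a partition of `ℕ` into `h` nonempty parts. -/
structure IsPartition {h : ℕ} (W : Fin h → Set ℕ) : Prop where
  nonempty : ∀ i, (W i).Nonempty
  disjoint : ∀ i j, i ≠ j → Disjoint (W i) (W j)
  cover : ∀ n, ∃ i, n ∈ W i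

/-- `A = {0} ∪ A_𝒢(W_0) ∪ ⋯ ∪ A_𝒢(W_{h-1})`. -/
def A {h : ℕ} (g : ℕ → ℕ) (W : Fin h → Set ℕ) : Set ℕ := {0} ∪ ⋃ i, AG g (W i)

/-- `S(𝒢, W)`: the set of `a ∈ A` such that `A \ {a}` is a minimal asymptotic basis of
order `h`. -/
def S {h : ℕ} (g : ℕ → ℕ) (W : Fin h → Set ℕ) : Set ℕ :=
  {a | a ∈ A g W ∧ IsMinimalAsymptoticBasis h (A g W \ {a})}

end Pool.Agent.Helper51.GAdic
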