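import Pool.Agent.Helper51.GAdicBasic

set_option autoImplicit false

namespace Pool.Agent.Helper51.GAdic

open Finset

variable {g : ℕ → ℕ} {h : ℕ} {W : Fin h → Set ℕ}

theorem sum_mod_le {ι : Type*} (s : Finset ι) (f : ι → ℕ) (m : ℕ) :
    (∑ k ∈ s, f k) % m ≤ ∑ k ∈ s, f k % m := by
  rw [Finset.sum_nat_mod]
  exact Nat.mod_le _ _

/-- A criterion for `a` to be irremovable from `A`. -/
theorem not_basis_of_crit (hg : IsGAdic g) (hW : IsPartition W) (i : Fin h) (a : ℕ)
    (hs : Supp g (W i) a) (hinf : ((W i)ᶜ).Infinite)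
    (hc : ∀ c : Fin h → Fin h, ¬ Function.Bijective c →
      ∃ p, ∑ k, M g (W (c k)) p < a % g p + ∑ j ∈ univ.erase i, M g (W j) p) :
    ¬ IsAsymptoticBasis h (A g W \ {a}) := by
  classical
  rintro ⟨N, hN⟩
  -- a bound for all the witnesses
  have hc' : ∀ c : Fin h → Fin h, ∃ p, ¬ Function.Bijective c →
      ∑ k, M g (W (c k)) p < a % g p + ∑ j ∈ univ.erase i, M g (W j) p := by
    intro c
    by_cases hb : Function.Bijective c
    · exact ⟨0, fun h' => absurd hb h'⟩
    · obtain ⟨p, hp⟩ := hc c hb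
      exact ⟨p, fun _ => hp⟩
  choose p hp using hc'
  let P := univ.sup p
  have hP : ∀ c, p c ≤ P := fun c => Finset.le_sup (f := p) (mem_univ c)
  let K := P + a
  obtain ⟨m, hm, hmK⟩ := hinf.exists_gt (K + N)
  have hmi : m ∉ W i := hm
  let y : Fin h → ℕ := fun j => if j = i then a else M g (W j) K + (if m ∈ W j then g m else 0)
  have haK : a < g K := lt_of_lt_of_le (hg.lt_self a) (hg.le_of_le (by simp only [K]; omega))
  have hy : ∀ j, Supp g (W j) (y j) := by
    intro j
    by_cases hj : j = i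
    · simp only [y, if_pos hj]; rw [hj]; exact hs
    · simp only [y, if_neg hj]
      by_cases hmj : m ∈ W j
      · rw [if_pos hmj]
        exact supp_add_high hg (supp_M hg _ _) (supp_g hg hmj) (M_lt hg _ _)
          (hg.dvd_of_le (by omega))
      · rw [if_neg hmj, add_zero]; exact supp_M hg _ _
  have hymod : ∀ p, p ≤ K → ∀ j, j ≠ i → y j % g p = M g (W j) p := by
    intro p hpK j hj
    simp only [y, if_neg hj]
    have h1 : g p ∣ (if m ∈ W j then g m else 0) := by
      split_ifs
      · exact hg.dvd_of_le (by omega)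
      · exact dvd_zero _
    obtain ⟨t, ht⟩ := h1
    rw [ht, Nat.add_mul_mod_self_left, M_mod hg _ hpK]
  obtain ⟨l, hl⟩ := hW.cover m
  have hli : l ≠ i := fun h' => hmi (h' ▸ hl)
  have hyl : g m ≤ y l := by
    simp only [y, if_neg hli, if_pos hl]; omega
  have hn : N ≤ ∑ j, y j := by
    have h1 : y l ≤ ∑ j, y j := Finset.single_le_sum (fun _ _ => Nat.zero_le _) (mem_univ l)
    have h2 := hg.lt_self m
    omega
  obtain ⟨f, hf, hfs⟩ := hN _ hn
  -- choose the parts
  have hcx : ∀ k, ∃ l, Supp g (W l) (f k) := by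
    intro k
    have := (hf k).1
    rw [mem_A_iff hg] at this
    rcases this with h0 | ⟨l, _, hl⟩
    · exact ⟨i, by rw [h0]; exact Supp.zero _⟩
    · exact ⟨l, hl⟩
  choose c hcS using hcx
  by_cases hb : Function.Bijective c
  · let e := Equiv.ofBijective c hb
    have h1 : ∑ j, f (e.symm j) = ∑ j, y j := by
      rw [← hfs]
      exact Equiv.sum_comp e.symm f
    have h2 : ∀ j, Supp g (W j) (f (e.symm j)) := by
      intro j
      have h3 := hcS (e.symm j)
      have h4 : c (e.symm j) = j := e.apply_symm_apply j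
      rw [h4] at h3
      exact h3
    have h3 := hW.unique hg _ _ h2 hy h1 i
    have h4 : y i = a := by simp only [y, if_true]
    rw [h4] at h3
    exact (hf (e.symm i)).2 h3
  · have h1 := hp c hb
    have hpK : p c ≤ K := by
      have := hP c
      simp only [K]; omega
    have h2 : (∑ j, y j) % g (p c) = a % g (p c) + ∑ j ∈ univ.erase i, M g (W j) (p c) := by
      rw [hW.sum_mod_eq hg y hy, ← Finset.add_sum_erase _ _ (mem_univ i)]
      congr 1
      · simp only [y, if_true]
      · apply Finset.sum_congr rfl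
        intro j hj
        exact hymod _ hpK j (Finset.ne_of_mem_erase hj)
    have h3 : (∑ k, f k) % g (p c) ≤ ∑ k, M g (W (c k)) (p c) :=
      (sum_mod_le _ _ _).trans (Finset.sum_le_sum (fun k _ => (hcS k).mod_le hg _))
    rw [hfs, h2] at h3
    omega

/-- `g (k+1) - g k` is supported on any set containing `k`. -/
theorem supp_g_sub (hg : IsGAdic g) {V : Set ℕ} {k : ℕ} (hk : k ∈ V) :
    Supp g V (g (k + 1) - g k) := by
  intro j hj
  rcases Nat.lt_trichotomy j k with h | h | h
  · rw [Nat.mod_eq_zero_of_dvd (Nat.dvd_sub (hg.dvd_of_le (by omega)) (hg.dvd_of_le h)),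
      Nat.mod_eq_zero_of_dvd (Nat.dvd_sub (hg.dvd_of_le (by omega)) (hg.dvd_of_le h.le))]
  · subst h; exact absurd hk hj
  · have h1 := hg.pos k
    have h2 : g (k + 1) ≤ g j := hg.le_of_le h
    have h3 : g (k + 1) ≤ g (j + 1) := hg.le_of_le (by omega)
    have h4 := hg.lt_succ k
    rw [Nat.mod_eq_of_lt (by omega), Nat.mod_eq_of_lt (by omega)]

theorem supp_g_sub_pos (hg : IsGAdic g) (k : ℕ) : g k ≤ g (k + 1) - g k := by
  have := hg.two_mul_le k; omega

theorem split (hg : IsGAdic g) (hW : IsPartition W) {x : ℕ} (hx : x ∈ A g W) (h2 : 2 ≤ x) :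
    ∃ y z, y ∈ A g W \ {0} ∧ z ∈ A g W \ {0} ∧ y + z = x := by
  rw [mem_A_iff hg] at hx
  rcases hx with h0 | ⟨i, hx0, hxs⟩
  · omega
  obtain ⟨k, hk1, hk2⟩ := exists_top hg hx0
  by_cases hxk : x = g k
  · obtain ⟨k', rfl⟩ : ∃ k', k = k' + 1 := by
      rcases k with _ | k'
      · rw [hg.zero] at hxk; omega
      · exact ⟨k', rfl⟩
    obtain ⟨l, hl⟩ := hW.cover k'
    refine ⟨g k', g (k' + 1) - g k', ⟨?_, ?_⟩, ⟨?_, ?_⟩, ?_⟩
    · rw [mem_A_iff hg]; exact Or.inr ⟨l, (hg.pos k').ne', supp_g hg hl⟩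
    · have := hg.pos k'; simp only [Set.mem_singleton_iff]; omega
    · rw [mem_A_iff hg]
      refine Or.inr ⟨l, ?_, supp_g_sub hg hl⟩
      have := supp_g_sub_pos hg k'; have := hg.pos k'; omega
    · have := supp_g_sub_pos hg k'; have := hg.pos k'
      simp only [Set.mem_singleton_iff]; omega
    · have := hg.lt_succ k'; omega
  · have hki : k ∈ W i := hxs.top_mem hg hk1 hk2 hx0
    refine ⟨g k, x - g k, ⟨?_, ?_⟩, ⟨?_, ?_⟩, by omega⟩
    · rw [mem_A_iff hg]; exact Or.inr ⟨i, (hg.pos k).ne', supp_g hg hki⟩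
    · have := hg.pos k; simp only [Set.mem_singleton_iff]; omega
    · rw [mem_A_iff hg]
      exact Or.inr ⟨i, by omega, supp_sub_top hg hxs hk1 hk2⟩
    · simp only [Set.mem_singleton_iff]; omega

theorem list_split (hg : IsGAdic g) (hW : IsPartition W) (n : ℕ) :
    ∀ m k : ℕ, k + m ≤ n → ∀ l : List ℕ, l.length = k → (∀ x ∈ l, x ∈ A g W \ {0}) → l.sum = n →
      ∃ l' : List ℕ, l'.length = k + m ∧ (∀ x ∈ l', x ∈ A g W \ {0}) ∧ l'.sum = n := by
  intro m
  induction m with
  | zero => intro k _ l h1 h2 h3; exact ⟨l, by simpa using h1, h2, h3⟩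
  | succ m ih =>
    intro k hk l h1 h2 h3
    have hex : ∃ x ∈ l, 2 ≤ x := by
      by_contra hcon
      push Not at hcon
      have : l.sum ≤ l.length • 1 := List.sum_le_card_nsmul l 1 (fun x hx => by have := hcon x hx; omega)
      simp at this
      omega
    obtain ⟨x, hxl, hx2⟩ := hex
    obtain ⟨y, z, hy, hz, hyz⟩ := split hg hW (h2 x hxl).1 hx2
    obtain ⟨s, t, rfl⟩ := List.append_of_mem hxl
    obtain ⟨l', hl1, hl2, hl3⟩ := ih (k + 1) (by omega) (y :: z :: (s ++ t))
      (by simp at h1 ⊢; omega)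
      (by
        intro w hw
        simp only [List.mem_cons, List.mem_append] at hw
        rcases hw with rfl | rfl | hw | hw
        · exact hy
        · exact hz
        · exact h2 w (by simp [hw])
        · exact h2 w (by simp [hw]))
      (by simp at h3 ⊢; omega)
    exact ⟨l', by omega, hl2, hl3⟩

/-- `A \ {0}` is an asymptotic basis of order `h`. -/
theorem basis_diff_zero (hg : IsGAdic g) (hW : IsPartition W) :
    IsAsymptoticBasis h (A g W \ {0}) := by
  classical
  refine ⟨h + 1, fun n hn => ?_⟩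
  -- the nonzero components
  let l0 : List ℕ := ((univ : Finset (Fin h)).toList.map (fun i => comp g (W i) n)).filter (fun x => x ≠ 0)
  have hsum : l0.sum = n := by
    have h1 : ((univ : Finset (Fin h)).toList.map (fun i => comp g (W i) n)).sum = n := by
      rw [Finset.sum_map_toList]; exact hW.sum_comp hg n
    have h2 : ∀ l : List ℕ, (l.filter (fun x => x ≠ 0)).sum = l.sum := by
      intro l
      induction l with
      | nil => rfl
      | cons a l ih =>
        by_cases ha : a = 0
        · rw [List.filter_cons_of_neg (by simp [ha]), ih]; simp [ha]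
        · rw [List.filter_cons_of_pos (by simp [ha])]; simp only [List.sum_cons, ih]
    rw [h2, h1]
  have hlen : l0.length ≤ h := by
    refine (List.length_filter_le _ _).trans ?_
    simp
  have hmem : ∀ x ∈ l0, x ∈ A g W \ {0} := by
    intro x hx
    simp only [l0, List.mem_filter, List.mem_map] at hx
    obtain ⟨⟨i, _, rfl⟩, hx0⟩ := hx
    have hx0' : comp g (W i) n ≠ 0 := by simpa using hx0
    exact ⟨(mem_A_iff hg _).2 (Or.inr ⟨i, hx0', supp_comp hg _ _⟩), by simpa using hx0'⟩
  obtain ⟨l', hl1, hl2, hl3⟩ := list_split hg hW n (h - l0.length) l0.length (by omega) l0 rfl hmem hsum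
  have hl1' : l'.length = h := by omega
  subst hl1'
  refine ⟨fun k => l'.get k, fun k => hl2 _ (List.get_mem _ _), ?_⟩
  rw [← hl3]
  simp [← List.sum_ofFn]

end Pool.Agent.Helper51.GAdic
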