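import Pool.Agent.Helper51.GAdicEss

set_option autoImplicit false

namespace Pool.Agent.Helper51.GAdic

open Finset

variable {g : ℕ → ℕ} {h : ℕ} {W : Fin h → Set ℕ}

theorem M_other_lt (hg : IsGAdic g) (hW : IsPartition W) {j l : Fin h} (hjl : l ≠ j) {u v : ℕ}
    (huv : u ≤ v) (hb : ∀ q, u ≤ q → q < v → q ∈ W j) : M g (W l) v < g u := by
  rw [M_const huv (fun q h1 h2 hq => Set.disjoint_left.1 (hW.disjoint l j hjl) hq (hb q h1 h2))]
  exact M_lt hg _ _

/-- irremovability of nonzero elements under the block condition -/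
theorem ess_block (hg : IsGAdic g) (hW : IsPartition W) (i : Fin h) (a : ℕ) (ha : a ≠ 0)
    (hs : Supp g (W i) a) (hinf : ((W i)ᶜ).Infinite)
    (hb : ∀ j, j ≠ i → ∃ u v, u ≤ v ∧ (∀ q, u ≤ q → q ≤ v → q ∈ W j) ∧
      (h + 1) * g u ≤ g (v + 1)) :
    ¬ IsAsymptoticBasis h (A g W \ {a}) := by
  classical
  apply not_basis_of_crit hg hW i a hs hinf
  intro c hc
  have hh : 0 < h := Fin.pos i
  by_cases hr : ∃ j, j ≠ i ∧ ∀ k, c k ≠ j
  · obtain ⟨j, hji, hj⟩ := hr
    obtain ⟨u, v, huv, hblk, hgr⟩ := hb j hji
    refine ⟨v + 1, ?_⟩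
    have h1 : ∑ k, M g (W (c k)) (v + 1) ≤ ∑ _k : Fin h, (g u - 1) := by
      apply Finset.sum_le_sum
      intro k _
      have := M_other_lt hg hW (hj k) (u := u) (v := v + 1) (by omega)
        (fun q h1 h2 => hblk q h1 (by omega))
      omega
    rw [Finset.sum_const, Finset.card_univ, Fintype.card_fin, smul_eq_mul] at h1
    have h2 : g (v + 1) - g u ≤ M g (W j) (v + 1) := by
      rw [M_block hg (u := u) (v := v + 1) (by omega) (fun q h1 h2 => hblk q h1 (by omega))]
      omega
    have h3 : M g (W j) (v + 1) ≤ ∑ j ∈ univ.erase i, M g (W j) (v + 1) :=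
      Finset.single_le_sum (f := fun j => M g (W j) (v + 1)) (fun _ _ => Nat.zero_le _)
        (Finset.mem_erase.2 ⟨hji, mem_univ j⟩)
    have h4 := hg.pos u
    have h5 : h * (g u - 1) < h * g u := Nat.mul_lt_mul_of_pos_left (by omega) hh
    have h6 : (h + 1) * g u = h * g u + g u := by ring
    omega
  · push Not at hr
    -- `c` hits all `j ≠ i`, and misses `i`
    have hi : ∀ k, c k ≠ i := by
      intro k0 hk0
      apply hc
      rw [← Finite.surjective_iff_bijective]
      intro j
      by_cases hj : j = i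
      · exact ⟨k0, by rw [hk0, hj]⟩
      · obtain ⟨k, hk⟩ := hr j hj
        exact ⟨k, hk⟩
    have hr' : ∀ j, ∃ k, j ≠ i → c k = j := by
      intro j
      by_cases hj : j = i
      · exact ⟨i, fun h' => absurd hj h'⟩
      · obtain ⟨k, hk⟩ := hr j hj
        exact ⟨k, fun _ => hk⟩
    choose r hr2 using hr'
    have hinj : Set.InjOn r (univ.erase i : Finset (Fin h)) := by
      intro x hx y hy hxy
      have hx' : x ≠ i := by simpa using hx
      have hy' : y ≠ i := by simpa using hy
      rw [← hr2 x hx', ← hr2 y hy', hxy]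
    let T := (univ.erase i).image r
    have hT : T.card = h - 1 := by
      rw [Finset.card_image_of_injOn hinj, Finset.card_erase_of_mem (mem_univ i), Finset.card_univ,
        Fintype.card_fin]
    have hT2 : (univ \ T).card = 1 := by
      rw [Finset.card_univ_sdiff, hT, Fintype.card_fin]; omega
    obtain ⟨k0, hk0⟩ := Finset.card_eq_one.1 hT2
    obtain ⟨q, hq1, hq2⟩ := exists_top hg ha
    have hqi : q ∈ W i := hs.top_mem hg hq1 hq2 ha
    refine ⟨q + 1, ?_⟩
    have h1 : ∑ k, M g (W (c k)) (q + 1) =
        ∑ k ∈ univ \ T, M g (W (c k)) (q + 1) + ∑ k ∈ T, M g (W (c k)) (q + 1) :=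
      (Finset.sum_sdiff (Finset.subset_univ T)).symm
    have h2 : ∑ k ∈ T, M g (W (c k)) (q + 1) = ∑ j ∈ univ.erase i, M g (W j) (q + 1) := by
      rw [Finset.sum_image hinj]
      apply Finset.sum_congr rfl
      intro j hj
      rw [hr2 j (Finset.ne_of_mem_erase hj)]
    rw [h1, h2, hk0, Finset.sum_singleton]
    have h3 : M g (W (c k0)) (q + 1) < g q :=
      M_other_lt hg hW (hi k0) (u := q) (v := q + 1) (by omega)
        (fun q' h1 h2 => by
          have : q' = q := by omega
          rw [this]; exact hqi)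
    rw [Nat.mod_eq_of_lt hq2]
    omega

theorem S_eq_singleton_zero (hg : IsGAdic g) (hW : IsPartition W)
    (hess : ∀ a ∈ A g W, a ≠ 0 → ¬ IsAsymptoticBasis h (A g W \ {a})) : S g W = {0} := by
  ext a
  simp only [S, Set.mem_ofPred_eq, Set.mem_singleton_iff]
  constructor
  · rintro ⟨ha, hmin⟩
    by_contra h0
    exact hess a ha h0 hmin.1
  · rintro rfl
    refine ⟨(mem_A_iff hg 0).2 (Or.inl rfl), basis_diff_zero hg hW, ?_⟩
    intro B hB hBas
    obtain ⟨hsub, hne⟩ := hB
    obtain ⟨b, hb, hbB⟩ := Set.not_subset.1 hne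
    have hb0 : b ≠ 0 := fun h' => hb.2 h'
    apply hess b hb.1 hb0
    apply IsAsymptoticBasis.mono _ hBas
    intro x hx
    exact ⟨(hsub hx).1, fun h' => hbB (by rw [← (h' : x = b)]; exact hx)⟩

/-- The block theorem. -/
theorem S_block (hg : IsGAdic g) (hW : IsPartition W) (hinf : ∀ i, ((W i)ᶜ).Infinite)
    (hb : ∀ j, ∃ u v, u ≤ v ∧ (∀ q, u ≤ q → q ≤ v → q ∈ W j) ∧ (h + 1) * g u ≤ g (v + 1)) :
    S g W = {0} := by
  apply S_eq_singleton_zero hg hW
  intro a ha h0
  rw [mem_A_iff hg] at ha
  rcases ha with h' | ⟨i, _, hs⟩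
  · exact absurd h' h0
  · exact ess_block hg hW i a h0 hs (hinf i) (fun j _ => hb j)

/-- If some part is cofinite then `S` is empty. -/
theorem S_cofinite (hg : IsGAdic g) (hW : IsPartition W) (i : Fin h) (hfin : ((W i)ᶜ).Finite) :
    S g W = ∅ := by
  classical
  rw [Set.eq_empty_iff_forall_notMem]
  rintro a ⟨ha, hbas, hmin⟩
  obtain ⟨r0, hr0⟩ : ∃ r0, ∀ j, r0 ≤ j → j ∈ W i := by
    obtain ⟨r, hr⟩ := hfin.bddAbove
    refine ⟨r + 1, fun j hj => ?_⟩
    by_contra hcon
    have := hr (show j ∈ (W i)ᶜ from hcon)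
    omega
  let q0 := r0 + a
  let b := g q0
  let r := q0 + 1
  have hab : a < b := lt_of_lt_of_le (hg.lt_self a) (hg.le_of_le (by simp only [q0]; omega))
  have hbr : b < g r := hg.lt_succ q0
  have hq0 : q0 ∈ W i := hr0 _ (by simp only [q0]; omega)
  have hr : ∀ j, r ≤ j → j ∈ W i := fun j hj => hr0 j (by simp only [r, q0] at hj; omega)
  have hbA : b ∈ A g W := (mem_A_iff hg b).2 (Or.inr ⟨i, (hg.pos q0).ne', supp_g hg hq0⟩)
  apply hmin ((A g W \ {a}) \ {b})
  · refine ⟨fun x hx => hx.1, fun hcon => ?_⟩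
    exact (hcon ⟨hbA, fun h' => by
      have : b = a := h'
      omega⟩).2 rfl
  · obtain ⟨N1, hN1⟩ := hbas
    refine ⟨N1 + h * ((h + 2) * g r) + 1, fun n hn => ?_⟩
    obtain ⟨f, hf, hfs⟩ := hN1 n (by omega)
    have hex : ∃ k1, (h + 2) * g r ≤ f k1 := by
      by_contra hcon
      push Not at hcon
      have h1 : ∑ k, f k ≤ ∑ _k : Fin h, (h + 2) * g r :=
        Finset.sum_le_sum (fun k _ => (hcon k).le)
      rw [Finset.sum_const, Finset.card_univ, Fintype.card_fin, smul_eq_mul, hfs] at h1
      omega
    obtain ⟨k1, hk1⟩ := hex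
    have hgr : 0 < g r := hg.pos r
    have hk1pos : f k1 ≠ 0 := by nlinarith
    have hk1r : g r ≤ f k1 := by nlinarith
    have hsk1 : Supp g (W i) (f k1) := by
      have h1 := (hf k1).1
      rw [mem_A_iff hg] at h1
      rcases h1 with h1 | ⟨l, _, hl⟩
      · exact absurd h1 hk1pos
      · obtain ⟨q, hq1, hq2⟩ := exists_top hg hk1pos
        have hql := hl.top_mem hg hq1 hq2 hk1pos
        have hqr : r ≤ q := by
          by_contra hcon
          have := hg.le_of_le (show q + 1 ≤ r by omega)
          omega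
        by_cases hli : l = i
        · rw [← hli]; exact hl
        · exact absurd (hr q hqr) (fun h' => Set.disjoint_left.1 (hW.disjoint l i hli) hql h')
    let T := univ.filter (fun k => f k = b)
    have hTk1 : k1 ∉ T := by
      simp only [T, mem_filter, mem_univ, true_and]
      omega
    have hTcard : T.card ≤ h := by
      have := Finset.card_le_univ T
      simpa using this
    let t := T.card
    have htr : t * g r ≤ h * g r := Nat.mul_le_mul_right _ hTcard
    have hk1' : (h + 2) * g r = h * g r + 2 * g r := by ring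
    let f' : Fin h → ℕ := fun k => if k = k1 then f k1 - t * g r else if f k = b then b + g r else f k
    refine ⟨f', ?_, ?_⟩
    · intro k
      by_cases hk : k = k1
      · simp only [f', if_pos hk]
        have hlt : 2 * g r ≤ f k1 - t * g r := by omega
        refine ⟨⟨?_, ?_⟩, ?_⟩
        · rw [mem_A_iff hg]
          refine Or.inr ⟨i, by omega, supp_of_cofinite hg hr hsk1 ?_⟩
          conv_rhs => rw [← Nat.sub_add_cancel (show t * g r ≤ f k1 by omega)]
          rw [Nat.add_mul_mod_self_right]
        · simp only [Set.mem_singleton_iff]; omega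
        · simp only [Set.mem_singleton_iff]; omega
      · simp only [f', if_neg hk]
        by_cases hkb : f k = b
        · rw [if_pos hkb]
          refine ⟨⟨?_, ?_⟩, ?_⟩
          · rw [mem_A_iff hg]
            refine Or.inr ⟨i, by omega, supp_of_cofinite hg hr (supp_g hg hq0) ?_⟩
            rw [Nat.add_mod_right]
          · simp only [Set.mem_singleton_iff]; omega
          · simp only [Set.mem_singleton_iff]; omega
        · rw [if_neg hkb]
          exact ⟨hf k, hkb⟩
    · rw [← Finset.add_sum_erase _ _ (mem_univ k1)]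
      have h1 : ∑ k ∈ univ.erase k1, f' k = ∑ k ∈ univ.erase k1, (f k + if f k = b then g r else 0) := by
        apply Finset.sum_congr rfl
        intro k hk
        simp only [f', if_neg (Finset.ne_of_mem_erase hk)]
        split_ifs with h'
        · rw [h']
        · simp
      have h2 : ∑ k ∈ univ.erase k1, (if f k = b then g r else 0) = t * g r := by
        rw [← Finset.sum_filter, Finset.sum_const, smul_eq_mul]
        congr 1
        have : (univ.erase k1).filter (fun k => f k = b) = T := by
          ext k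
          simp only [mem_filter, mem_erase, mem_univ, and_true, T, true_and]
          constructor
          · exact fun h' => h'.2
          · intro h'
            refine ⟨?_, h'⟩
            rintro rfl
            exact hTk1 (by simp only [T, mem_filter, mem_univ, true_and]; exact h')
        rw [this]
      rw [h1, Finset.sum_add_distrib, h2]
      have h3 : f' k1 = f k1 - t * g r := by simp only [f', if_true]
      rw [h3]
      have h4 : f k1 + ∑ k ∈ univ.erase k1, f k = n := by
        rw [Finset.add_sum_erase _ _ (mem_univ k1), hfs]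
      omega

end Pool.Agent.Helper51.GAdic
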