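import Pool.Agent.Helper51.GAdicGen

set_option autoImplicit false

namespace Pool.Agent.Helper51.GAdic

open Finset

variable {g : ℕ → ℕ} {W : Fin 2 → Set ℕ}

theorem AB2_iff (B : Set ℕ) : IsAsymptoticBasis 2 B ↔
    ∃ N, ∀ n, N ≤ n → ∃ x ∈ B, ∃ y ∈ B, x + y = n := by
  constructor
  · rintro ⟨N, hN⟩
    refine ⟨N, fun n hn => ?_⟩
    obtain ⟨f, hf, hs⟩ := hN n hn
    exact ⟨f 0, hf 0, f 1, hf 1, by rw [← hs, Fin.sum_univ_two]⟩
  · rintro ⟨N, hN⟩
    refine ⟨N, fun n hn => ?_⟩
    obtain ⟨x, hx, y, hy, hs⟩ := hN n hn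
    refine ⟨![x, y], ?_, ?_⟩
    · intro k
      fin_cases k
      · exact hx
      · exact hy
    · rw [Fin.sum_univ_two]; exact hs

theorem two_eq {i j : Fin 2} (hij : i ≠ j) (l : Fin 2) : l = i ∨ l = j := by
  revert i j l; decide

theorem sum_two {i j : Fin 2} (hij : i ≠ j) (f : Fin 2 → ℕ) : ∑ l, f l = f i + f j := by
  rw [Fin.sum_univ_two]
  fin_cases i <;> fin_cases j <;> simp_all [add_comm]

theorem erase_two {i j : Fin 2} (hij : i ≠ j) : (univ : Finset (Fin 2)).erase i = {j} := by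
  revert i j; decide

section

variable {i j : Fin 2}

theorem notMem_j (hW : IsPartition W) (hij : i ≠ j) {k : ℕ} (hk : k ∈ W i) : k ∉ W j :=
  fun h => Set.disjoint_left.1 (hW.disjoint i j hij) hk h

theorem notMem_i (hW : IsPartition W) (hij : i ≠ j) {k : ℕ} (hk : k ∈ W j) : k ∉ W i :=
  fun h => Set.disjoint_left.1 (hW.disjoint i j hij) h hk

theorem mem_or (hW : IsPartition W) (hij : i ≠ j) (k : ℕ) : k ∈ W i ∨ k ∈ W j := by
  obtain ⟨l, hl⟩ := hW.cover k
  rcases two_eq hij l with rfl | rfl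
  · exact Or.inl hl
  · exact Or.inr hl

theorem M_add (hg : IsGAdic g) (hW : IsPartition W) (hij : i ≠ j) (p : ℕ) :
    M g (W i) p + M g (W j) p + 1 = g p := by
  have h1 := hW.sum_M hg p
  rw [sum_two hij] at h1
  have := hg.pos p
  omega

theorem comp_add (hg : IsGAdic g) (hW : IsPartition W) (hij : i ≠ j) (n : ℕ) :
    comp g (W i) n + comp g (W j) n = n := by
  have h1 := hW.sum_comp hg n
  rw [sum_two hij] at h1
  exact h1

theorem unique2 (hg : IsGAdic g) (hW : IsPartition W) (hij : i ≠ j) {x x' y y' : ℕ}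
    (hx : Supp g (W i) x) (hx' : Supp g (W i) x') (hy : Supp g (W j) y) (hy' : Supp g (W j) y')
    (he : x + y = x' + y') : x = x' ∧ y = y' := by
  classical
  have h := hW.unique hg (fun l => if l = i then x else y) (fun l => if l = i then x' else y')
    (by intro l; rcases two_eq hij l with rfl | rfl
        · simpa using hx
        · simpa [hij.symm] using hy)
    (by intro l; rcases two_eq hij l with rfl | rfl
        · simpa using hx'
        · simpa [hij.symm] using hy')
    (by rw [sum_two hij, sum_two hij]; simpa [hij.symm] using he)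
  have h1 := h i
  have h2 := h j
  simp [hij.symm] at h1 h2
  exact ⟨h1, h2⟩

theorem compl_infinite (hW : IsPartition W) (hij : i ≠ j) (hj : (W j).Infinite) :
    ((W i)ᶜ).Infinite :=
  hj.mono (fun _ hk => notMem_i hW hij hk)

/-- irremovability criterion for two parts -/
theorem ess2 (hg : IsGAdic g) (hW : IsPartition W) (hij : i ≠ j) {a : ℕ} (ha : a ≠ 0)
    (hs : Supp g (W i) a) (hj : (W j).Infinite) (p0 : ℕ)
    (hp0 : 2 * M g (W i) p0 < a % g p0 + M g (W j) p0) :
    ¬ IsAsymptoticBasis 2 (A g W \ {a}) := by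
  apply not_basis_of_crit hg hW i a hs (compl_infinite hW hij hj)
  intro c hc
  have hc01 : c 0 = c 1 := by
    by_contra hne
    apply hc
    rw [← Finite.injective_iff_bijective]
    intro x y hxy
    fin_cases x <;> fin_cases y
    · rfl
    · exact absurd hxy hne
    · exact absurd hxy.symm hne
    · rfl
  rcases two_eq hij (c 0) with h0 | h0
  · refine ⟨p0, ?_⟩
    rw [Fin.sum_univ_two, ← hc01, h0, erase_two hij, Finset.sum_singleton]
    omega
  · obtain ⟨q, hq1, hq2⟩ := exists_top hg ha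
    have hqi := hs.top_mem hg hq1 hq2 ha
    refine ⟨q + 1, ?_⟩
    rw [Fin.sum_univ_two, ← hc01, h0, erase_two hij, Finset.sum_singleton, Nat.mod_eq_of_lt hq2,
      M_succ_notMem (notMem_j hW hij hqi)]
    have := M_lt hg (W j) q
    omega

end

theorem supp_mul_g (hg : IsGAdic g) {U : Set ℕ} {p s : ℕ} (hp : p ∈ U) (hs : s * g p < g (p + 1)) :
    Supp g U (s * g p) := by
  intro j hj
  rcases Nat.lt_trichotomy j p with h | h | h
  · rw [Nat.mod_eq_zero_of_dvd ((hg.dvd_of_le (by omega)).mul_left _),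
      Nat.mod_eq_zero_of_dvd ((hg.dvd_of_le h.le).mul_left _)]
  · subst h; exact absurd hp hj
  · have h2 : g (p + 1) ≤ g j := hg.le_of_le h
    have h3 : g (p + 1) ≤ g (j + 1) := hg.le_of_le (by omega)
    rw [Nat.mod_eq_of_lt (by omega), Nat.mod_eq_of_lt (by omega)]

theorem two_sum_aux (hg : IsGAdic g) (U : Set ℕ) (n : ℕ) (hn : ∀ p, n % g p ≤ 2 * M g U p) :
    ∀ p t : ℕ, n % g p + t * g p ≤ 2 * M g U p →
      ∃ x y, Supp g U x ∧ Supp g U y ∧ x < g p ∧ y < g p ∧ x + y = n % g p + t * g p := by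
  intro p
  induction p with
  | zero =>
    intro t ht
    rw [M_zero] at ht
    refine ⟨0, 0, Supp.zero _, Supp.zero _, hg.pos 0, hg.pos 0, ?_⟩
    omega
  | succ p ih =>
    intro t ht
    obtain ⟨d, hd⟩ := hg.dvd p
    obtain ⟨c, hc⟩ := dp_dvd hg n p
    have hadd := dp_add hg n p
    have hp := hg.pos p
    have hd2 : 2 ≤ d := by
      have := hg.two_mul_le p
      rw [hd] at this
      by_contra hcon
      have : g p * d ≤ g p * 1 := Nat.mul_le_mul_left _ (by omega)
      omega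
    by_cases hpU : p ∈ U
    · rw [M_succ_mem hpU] at ht
      -- total digit t' = c + t * d
      have e1 : n % g (p + 1) + t * g (p + 1) = n % g p + (c + t * d) * g p := by
        rw [← hadd, hc, hd]; ring
      rw [e1] at ht ⊢
      have e2 : g (p + 1) - g p = (d - 1) * g p := by
        rw [hd, Nat.sub_mul, Nat.mul_comm d, Nat.one_mul]
      rw [e2] at ht
      obtain ⟨s, k, hsk, hs2, hk⟩ : ∃ s k, s + k = c + t * d ∧ s ≤ 2 * (d - 1) ∧
          n % g p + k * g p ≤ 2 * M g U p := by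
        by_cases hle : c + t * d ≤ 2 * (d - 1)
        · exact ⟨c + t * d, 0, by omega, hle, by have := hn p; omega⟩
        · refine ⟨2 * (d - 1), c + t * d - 2 * (d - 1), by omega, le_rfl, ?_⟩
          have e3 : (c + t * d) * g p = (c + t * d - 2 * (d - 1)) * g p + 2 * (d - 1) * g p := by
            rw [← Nat.add_mul]; congr 1; omega
          rw [e3] at ht
          nlinarith
      obtain ⟨x, y, hx, hy, hxp, hyp, hxy⟩ := ih k hk
      have hmul : ∀ s' : ℕ, s' ≤ d - 1 → s' * g p + g p ≤ g (p + 1) := by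
        intro s' hs'
        rw [hd]
        have : (s' + 1) * g p ≤ d * g p := Nat.mul_le_mul_right _ (by omega)
        nlinarith
      have h1 := hmul (min s (d - 1)) (min_le_right _ _)
      have h2 := hmul (s - min s (d - 1)) (by omega)
      refine ⟨x + min s (d - 1) * g p, y + (s - min s (d - 1)) * g p, ?_, ?_, by omega, by omega, ?_⟩
      · exact supp_add_high hg hx (supp_mul_g hg hpU (by omega)) hxp (Dvd.intro_left _ rfl)
      · exact supp_add_high hg hy (supp_mul_g hg hpU (by omega)) hyp (Dvd.intro_left _ rfl)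
      · rw [← hsk]
        have e4 : s * g p = min s (d - 1) * g p + (s - min s (d - 1)) * g p := by
          rw [← Nat.add_mul]; congr 1; omega
        nlinarith
    · rw [M_succ_notMem hpU] at ht
      have e1 : n % g (p + 1) + t * g (p + 1) = n % g p + (c + t * d) * g p := by
        rw [← hadd, hc, hd]; ring
      rw [e1] at ht ⊢
      obtain ⟨x, y, hx, hy, hxp, hyp, hxy⟩ := ih _ ht
      have := hg.lt_succ p
      exact ⟨x, y, hx, hy, by omega, by omega, hxy⟩

/-- `n` is a sum of two numbers supported on `U` iff `n % g p ≤ 2 M_U(p)` for all `p`. -/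
theorem two_sum (hg : IsGAdic g) (U : Set ℕ) (n : ℕ) (hn : ∀ p, n % g p ≤ 2 * M g U p) :
    ∃ x y, Supp g U x ∧ Supp g U y ∧ x + y = n := by
  obtain ⟨x, y, hx, hy, _, _, hxy⟩ := two_sum_aux hg U n hn n 0 (by simpa using hn n)
  refine ⟨x, y, hx, hy, ?_⟩
  rw [hxy, Nat.mod_eq_of_lt (hg.lt_self n)]
  simp

section

variable {i j : Fin 2}

/-- The hypothesis that `V = W j` can be fed by `U = W i`. -/
def Bad (g : ℕ → ℕ) (V : Set ℕ) : Prop := ∀ k ∈ V, k + 1 ∉ V ∧ g (k + 1) = 2 * g k

def Good (g : ℕ → ℕ) (U V : Set ℕ) (b : ℕ) : Prop := ∀ p, M g V p + b % g p ≤ 2 * M g U p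

theorem bad_mono (hg : IsGAdic g) (hW : IsPartition W) (hij : i ≠ j)
    (hbad : Bad g (W j)) (c0 p1 : ℕ) (hp1 : p1 ∉ W j)
    (hR : M g (W j) p1 + c0 ≤ 2 * M g (W i) p1) :
    ∀ p, p1 ≤ p → M g (W j) p + c0 ≤ 2 * M g (W i) p := by
  intro p
  induction p using Nat.strong_induction_on with
  | _ p ih =>
    intro hp
    rcases Nat.lt_or_ge p1 p with hlt | hge
    · obtain ⟨k, rfl⟩ : ∃ k, p = k + 1 := ⟨p - 1, by omega⟩
      by_cases hk : k ∈ W j
      · have hk1 : p1 ≠ k := fun h' => hp1 (h' ▸ hk)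
        obtain ⟨m, rfl⟩ : ∃ m, k = m + 1 := ⟨k - 1, by omega⟩
        have hmj : m ∉ W j := fun hm => (hbad m hm).1 hk
        have hmi : m ∈ W i := (mem_or hW hij m).resolve_right hmj
        have h1 := ih m (by omega) (by omega)
        rw [M_succ_mem hk, M_succ_notMem hmj, M_succ_notMem (notMem_i hW hij hk), M_succ_mem hmi,
          (hbad (m + 1) hk).2]
        have h2 := hg.two_mul_le m
        omega
      · have h1 := ih k (by omega) (by omega)
        rw [M_succ_notMem hk]
        have h2 : M g (W i) k ≤ M g (W i) (k + 1) := M_mono _ (Nat.le_succ k)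
        omega
    · have : p = p1 := le_antisymm hge hp
      subst this
      exact hR

theorem good_g (hg : IsGAdic g) (hW : IsPartition W) (hij : i ≠ j) (h0 : 0 ∈ W i)
    (hbad : Bad g (W j)) {q : ℕ} (hq : q ∈ W i) (hq1 : q + 1 ∈ W i ∨ 3 * g q ≤ g (q + 1)) :
    Good g (W i) (W j) (g q) := by
  have hzero := bad_mono hg hW hij hbad 0 0 (notMem_j hW hij h0) (by simp [M_zero])
  intro p
  rcases Nat.lt_or_ge q p with hlt | hge
  · rw [Nat.mod_eq_of_lt (hg.mono hlt)]
    have hq' := notMem_j hW hij hq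
    have h2 := hg.two_mul_le q
    have h3 := hzero q (Nat.zero_le _)
    have hR1 : M g (W j) (q + 1) + g q ≤ 2 * M g (W i) (q + 1) := by
      rw [M_succ_notMem hq', M_succ_mem hq]
      omega
    by_cases hq2 : q + 1 ∈ W j
    · have h4 : 3 * g q ≤ g (q + 1) := hq1.resolve_left (notMem_i hW hij hq2)
      have hR2 : M g (W j) (q + 2) + g q ≤ 2 * M g (W i) (q + 2) := by
        rw [M_succ_mem hq2, M_succ_notMem hq', M_succ_notMem (notMem_i hW hij hq2), M_succ_mem hq,
          (hbad _ hq2).2]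
        omega
      rcases Nat.lt_or_ge (q + 1) p with h5 | h5
      · exact bad_mono hg hW hij hbad (g q) (q + 2) (hbad _ hq2).1 hR2 p (by omega)
      · have : p = q + 1 := by omega
        rw [this]; exact hR1
    · exact bad_mono hg hW hij hbad (g q) (q + 1) hq2 hR1 p hlt
  · rw [Nat.mod_eq_zero_of_dvd (hg.dvd_of_le hge)]
    exact hzero p (Nat.zero_le _)

theorem good_two (hg : IsGAdic g) (hW : IsPartition W) (hij : i ≠ j) (h0 : 0 ∈ W i)
    (hbad : Bad g (W j)) (hI : 4 ≤ g 1 ∨ 1 ∈ W i) :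
    Good g (W i) (W j) 2 := by
  have hg0 := hg.zero
  have h01 := hg.two_mul_le 0
  have h12 := hg.two_mul_le 1
  simp only [zero_add, one_add_one_eq_two] at h01 h12
  have h0j := notMem_j hW hij h0
  have hj1 : M g (W j) 1 = 0 := by
    have := M_succ_notMem (g := g) h0j
    rw [M_zero] at this
    exact this
  have hi1 : M g (W i) 1 = g 1 - 1 := by
    have := M_succ_mem (g := g) h0
    rw [M_zero, hg0] at this
    simpa using this
  have hle : ∀ p, 2 % g p ≤ 2 := fun p => Nat.mod_le _ _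
  intro p
  rcases p with _ | _ | p
  · simp [M_zero, hg0, Nat.mod_one]
  · rw [zero_add, hj1, hi1]
    have := hle 1
    omega
  · have hp := hle (p + 2)
    by_cases h1 : 1 ∈ W j
    · have h4 : 4 ≤ g 1 := hI.resolve_right (notMem_i hW hij h1)
      have hR : M g (W j) 2 + 2 ≤ 2 * M g (W i) 2 := by
        have e1 := M_succ_mem (g := g) h1
        have e2 := M_succ_notMem (g := g) (notMem_i hW hij h1)
        have e3 := (hbad 1 h1).2
        simp only [one_add_one_eq_two] at e1 e2 e3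
        rw [e1, e2, e3, hj1, hi1]
        omega
      have := bad_mono hg hW hij hbad 2 2 (hbad 1 h1).1 hR (p + 2) (by omega)
      have h5 : p + 1 + 1 = p + 2 := rfl
      rw [h5]
      omega
    · have h1i : 1 ∈ W i := (mem_or hW hij 1).resolve_right h1
      have e1 := M_succ_notMem (g := g) h1
      have e2 := M_succ_mem (g := g) h1i
      simp only [one_add_one_eq_two] at e1 e2
      have hR1 : M g (W j) 2 + 2 ≤ 2 * M g (W i) 2 := by
        rw [e1, e2, hj1, hi1]
        omega
      have h5 : p + 1 + 1 = p + 2 := rfl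
      rw [h5]
      by_cases h2 : 2 ∈ W j
      · have hR2 : M g (W j) 3 + 2 ≤ 2 * M g (W i) 3 := by
          have f1 := M_succ_mem (g := g) h2
          have f2 := M_succ_notMem (g := g) (notMem_i hW hij h2)
          have f3 := (hbad 2 h2).2
          have h23 : 2 + 1 = 3 := rfl
          rw [h23] at f1 f2 f3
          rw [f1, f2, f3, e1, e2, hj1, hi1]
          omega
        rcases p with _ | p
        · rw [zero_add]
          have := hle 2
          omega
        · have := bad_mono hg hW hij hbad 2 3 (hbad 2 h2).1 hR2 (p + 1 + 2) (by omega)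
          omega
      · have := bad_mono hg hW hij hbad 2 2 h2 hR1 (p + 2) (by omega)
        omega

theorem large_one (hg : IsGAdic g) (hW : IsPartition W) (hij : i ≠ j) (hj : (W j).Infinite)
    {a0 : ℕ} (ha0 : Supp g (W i) a0) (C : ℕ) :
    ∃ N, ∀ n1, N ≤ n1 → Supp g (W j) n1 → ∀ x y, Supp g (W i) x → Supp g (W i) y →
      x + y = a0 + n1 → C < x := by
  obtain ⟨l, hl, hlC⟩ := hj.exists_gt (C + a0)
  refine ⟨g (l + 1), ?_⟩
  intro n1 hn1 hs x y hx hy hxy
  have hn0 : n1 ≠ 0 := by have := hg.pos (l + 1); omega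
  obtain ⟨k, hk1, hk2⟩ := exists_top hg hn0
  have hkj := hs.top_mem hg hk1 hk2 hn0
  have hlk : l < k := by
    by_contra hcon
    have := hg.le_of_le (show k + 1 ≤ l + 1 by omega)
    omega
  have e1 : a0 < g (k + 1) := lt_of_lt_of_le (hg.lt_self a0) (hg.le_of_le (by omega))
  have e2 := ha0.mod_le hg (k + 1)
  rw [Nat.mod_eq_of_lt e1] at e2
  have e3 := hs.mod_le hg (k + 1)
  rw [Nat.mod_eq_of_lt hk2] at e3
  have e4 := M_add hg hW hij (k + 1)
  have hy1 : y < g (k + 1) := by omega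
  have e5 := hy.mod_le hg (k + 1)
  rw [Nat.mod_eq_of_lt hy1, M_succ_notMem (notMem_i hW hij hkj)] at e5
  have e6 := M_add hg hW hij k
  have e7 : M g (W j) (l + 1) ≤ M g (W j) k := M_mono _ hlk
  rw [M_succ_mem hl] at e7
  have e8 := hg.two_mul_le l
  have e9 := hg.lt_self l
  omega

theorem large (hg : IsGAdic g) (hW : IsPartition W) (hij : i ≠ j) (hj : (W j).Infinite)
    {a0 : ℕ} (ha0 : Supp g (W i) a0) (C : ℕ) :
    ∃ N, ∀ n1, N ≤ n1 → Supp g (W j) n1 → ∀ x y, Supp g (W i) x → Supp g (W i) y →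
      x + y = a0 + n1 → C < x ∧ C < y := by
  obtain ⟨N, hN⟩ := large_one hg hW hij hj ha0 C
  refine ⟨N, fun n1 h1 h2 x y hx hy hxy => ⟨hN n1 h1 h2 x y hx hy hxy, ?_⟩⟩
  exact hN n1 h1 h2 y x hy hx (by omega)

/-- a good `b` can be avoided for all large `n` with `W i`-part equal to `b` -/
theorem good_rep (hg : IsGAdic g) {U V : Set ℕ} {b : ℕ} (hb : Good g U V b) {n1 : ℕ}
    (hs : Supp g V n1) : ∃ x y, Supp g U x ∧ Supp g U y ∧ x + y = b + n1 := by
  apply two_sum hg
  intro p
  have h1 : (b + n1) % g p ≤ b % g p + n1 % g p := by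
    rw [Nat.add_mod]; exact Nat.mod_le _ _
  have h2 := hs.mod_le hg p
  have h3 := hb p
  omega

theorem claimB (hg : IsGAdic g) (hW : IsPartition W) (hij : i ≠ j) (h0 : 0 ∈ W i)
    (hi : (W i).Infinite) (hj : (W j).Infinite) {a b : ℕ} (ha : a ∈ A g W) (ha0 : a ≠ 0)
    (hb0 : b ≠ 0) (hbs : Supp g (W i) b) (hgood : Good g (W i) (W j) b)
    (hab : a ≠ b) (hbas : IsAsymptoticBasis 2 (A g W \ {a})) :
    IsAsymptoticBasis 2 ((A g W \ {a}) \ {b}) := by
  -- `a` must be supported on `W i`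
  have has : Supp g (W i) a := by
    rw [mem_A_iff hg] at ha
    rcases ha with h' | ⟨l, _, hl⟩
    · exact absurd h' ha0
    · rcases two_eq hij l with rfl | rfl
      · exact hl
      · exfalso
        refine ess2 hg hW hij.symm ha0 hl hi 1 ?_ hbas
        have h1 := M_succ_notMem (g := g) (notMem_j hW hij h0)
        have h2 := M_succ_mem (g := g) h0
        rw [M_zero, zero_add] at h1 h2
        rw [h1, h2]
        have := supp_g_sub_pos hg 0
        have h3 := hg.pos 0
        simp only [zero_add] at this ⊢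
        omega
  rw [AB2_iff] at hbas ⊢
  obtain ⟨N0, hN0⟩ := hbas
  obtain ⟨N1, hN1⟩ := large hg hW hij hj has (a + b)
  obtain ⟨N2, hN2⟩ := large hg hW hij hj hbs (a + b)
  refine ⟨N0 + N1 + N2 + 2 * (a + b) + 1, fun n hn => ?_⟩
  have hdec := comp_add hg hW hij n
  have hU := supp_comp hg (W i) n
  have hV := supp_comp hg (W j) n
  generalize comp g (W i) n = n0 at hdec hU
  generalize comp g (W j) n = n1 at hdec hV
  have memU : ∀ x, Supp g (W i) x → x ∈ A g W := by
    intro x hx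
    rw [mem_A_iff hg]
    by_cases hx0 : x = 0
    · exact Or.inl hx0
    · exact Or.inr ⟨i, hx0, hx⟩
  have memV : ∀ x, Supp g (W j) x → x ∈ A g W := by
    intro x hx
    rw [mem_A_iff hg]
    by_cases hx0 : x = 0
    · exact Or.inl hx0
    · exact Or.inr ⟨j, hx0, hx⟩
  by_cases hnb : n0 = b
  · obtain ⟨x, y, hx, hy, hxy⟩ := good_rep hg hgood hV
    obtain ⟨hx1, hy1⟩ := hN2 n1 (by omega) hV x y hx hy hxy
    refine ⟨x, ⟨⟨memU x hx, ?_⟩, ?_⟩, y, ⟨⟨memU y hy, ?_⟩, ?_⟩, by omega⟩ <;>
      simp only [Set.mem_singleton_iff] <;> omega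
  · by_cases hna : n0 = a
    · obtain ⟨x, hx, y, hy, hxy⟩ := hN0 n (by omega)
      -- neither `x` nor `y` is `b`
      have key : ∀ x y, x ∈ A g W \ {a} → y ∈ A g W \ {a} → x + y = n → x ≠ b := by
        intro x y hx hy hxy hxb
        have hy' := hy.1
        rw [mem_A_iff hg] at hy'
        rcases hy' with h' | ⟨l, _, hl⟩
        · omega
        · rcases two_eq hij l with rfl | rfl
          · have := hN1 n1 (by omega) hV x y (by rw [hxb]; exact hbs) hl (by omega)
            omega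
          · have := unique2 hg hW hij (x := b) (x' := a) (y := y) (y' := n1) hbs has hl hV (by omega)
            exact hab this.1.symm
      exact ⟨x, ⟨hx, key x y hx hy hxy⟩, y, ⟨hy, key y x hy hx (by omega)⟩, hxy⟩
    · -- the digit decomposition works
      have h1a : n1 ≠ a := by
        intro h'
        have := unique2 hg hW hij (x := a) (x' := 0) (y := 0) (y' := a) has (Supp.zero _)
          (Supp.zero _) (h' ▸ hV) (by omega)
        exact ha0 this.1
      have h1b : n1 ≠ b := by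
        intro h'
        have := unique2 hg hW hij (x := b) (x' := 0) (y := 0) (y' := b) hbs (Supp.zero _)
          (Supp.zero _) (h' ▸ hV) (by omega)
        exact hb0 this.1
      exact ⟨n0, ⟨⟨memU _ hU, hna⟩, hnb⟩, n1, ⟨⟨memV _ hV, h1a⟩, h1b⟩, hdec⟩

theorem claimC (hg : IsGAdic g) (hW : IsPartition W) (hij : i ≠ j)
    (hj : (W j).Infinite) {b : ℕ}
    (hb0 : b ≠ 0) (hbs : Supp g (W i) b) (hgood : Good g (W i) (W j) b)
    (hstar : ∃ N, ∀ k ∈ W i, N ≤ k → ∃ x ∈ (A g W \ {0}) \ {b}, ∃ y ∈ (A g W \ {0}) \ {b},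
      x + y = g k + b) :
    IsAsymptoticBasis 2 ((A g W \ {0}) \ {b}) := by
  rw [AB2_iff]
  obtain ⟨N1, hN1⟩ := hstar
  obtain ⟨N2, hN2⟩ := large hg hW hij hj hbs b
  refine ⟨N2 + g (N1 + b + 2) + b + 1, fun n hn => ?_⟩
  have hdec := comp_add hg hW hij n
  have hU := supp_comp hg (W i) n
  have hV := supp_comp hg (W j) n
  generalize comp g (W i) n = n0 at hdec hU
  generalize comp g (W j) n = n1 at hdec hV
  have memU : ∀ x, Supp g (W i) x → x ∈ A g W := by
    intro x hx
    rw [mem_A_iff hg]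
    by_cases hx0 : x = 0
    · exact Or.inl hx0
    · exact Or.inr ⟨i, hx0, hx⟩
  have memV : ∀ x, Supp g (W j) x → x ∈ A g W := by
    intro x hx
    rw [mem_A_iff hg]
    by_cases hx0 : x = 0
    · exact Or.inl hx0
    · exact Or.inr ⟨j, hx0, hx⟩
  have hVb : ∀ x, Supp g (W j) x → x ≠ b := by
    intro x hx h'
    have := unique2 hg hW hij (x := b) (x' := 0) (y := 0) (y' := b) hbs (Supp.zero _)
      (Supp.zero _) (h' ▸ hx) (by omega)
    exact hb0 this.1
  -- splitting a large `g k`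
  have hsplit : ∀ k, b + 2 ≤ k → ∃ x ∈ (A g W \ {0}) \ {b}, ∃ y ∈ (A g W \ {0}) \ {b}, x + y = g k := by
    intro k hk
    obtain ⟨m, rfl⟩ : ∃ m, k = m + 1 := ⟨k - 1, by omega⟩
    obtain ⟨l, hl⟩ := hW.cover m
    have h1 := hg.lt_self m
    have h2 := supp_g_sub_pos hg m
    have h3 := hg.lt_succ m
    refine ⟨g m, ⟨⟨?_, ?_⟩, ?_⟩, g (m + 1) - g m, ⟨⟨?_, ?_⟩, ?_⟩, by omega⟩
    · exact (mem_A_iff hg _).2 (Or.inr ⟨l, by omega, supp_g hg hl⟩)
    · simp only [Set.mem_singleton_iff]; omega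
    · simp only [Set.mem_singleton_iff]; omega
    · exact (mem_A_iff hg _).2 (Or.inr ⟨l, by omega, supp_g_sub hg hl⟩)
    · simp only [Set.mem_singleton_iff]; omega
    · simp only [Set.mem_singleton_iff]; omega
  by_cases hn0 : n0 = 0
  · -- `n = n1`
    have hn1 : n1 ≠ 0 := by omega
    obtain ⟨k, hk1, hk2⟩ := exists_top hg hn1
    have hkj := hV.top_mem hg hk1 hk2 hn1
    have hkN : N1 + b + 2 ≤ k := by
      by_contra hcon
      have := hg.le_of_le (show k + 1 ≤ N1 + b + 2 by omega)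
      omega
    by_cases hrest : n1 = g k
    · obtain ⟨x, hx, y, hy, hxy⟩ := hsplit k (by omega)
      exact ⟨x, hx, y, hy, by omega⟩
    · have h1 := supp_sub_top hg hV hk1 hk2
      have h2 := hg.pos k
      refine ⟨g k, ⟨⟨memV _ (supp_g hg hkj), ?_⟩, hVb _ (supp_g hg hkj)⟩, n1 - g k,
        ⟨⟨memV _ h1, ?_⟩, hVb _ h1⟩, by omega⟩
      · simp only [Set.mem_singleton_iff]; omega
      · simp only [Set.mem_singleton_iff]; omega
  · by_cases hn1 : n1 = 0
    · -- `n = n0`
      obtain ⟨k, hk1, hk2⟩ := exists_top hg hn0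
      have hki := hU.top_mem hg hk1 hk2 hn0
      have hkN : N1 + b + 2 ≤ k := by
        by_contra hcon
        have := hg.le_of_le (show k + 1 ≤ N1 + b + 2 by omega)
        omega
      by_cases hrest : n0 = g k
      · obtain ⟨x, hx, y, hy, hxy⟩ := hsplit k (by omega)
        exact ⟨x, hx, y, hy, by omega⟩
      · by_cases hrestb : n0 - g k = b
        · obtain ⟨x, hx, y, hy, hxy⟩ := hN1 k hki (by omega)
          exact ⟨x, hx, y, hy, by omega⟩
        · have h1 := supp_sub_top hg hU hk1 hk2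
          have h2 := hg.lt_self k
          refine ⟨g k, ⟨⟨memU _ (supp_g hg hki), ?_⟩, ?_⟩, n0 - g k,
            ⟨⟨memU _ h1, ?_⟩, hrestb⟩, by omega⟩
          · simp only [Set.mem_singleton_iff]; omega
          · simp only [Set.mem_singleton_iff]; omega
          · simp only [Set.mem_singleton_iff]; omega
    · by_cases hnb : n0 = b
      · by_cases hbig : N2 ≤ n1
        · obtain ⟨x, y, hx, hy, hxy⟩ := good_rep hg hgood hV
          obtain ⟨hx1, hy1⟩ := hN2 n1 hbig hV x y hx hy hxy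
          refine ⟨x, ⟨⟨memU x hx, ?_⟩, ?_⟩, y, ⟨⟨memU y hy, ?_⟩, ?_⟩, by omega⟩ <;>
            simp only [Set.mem_singleton_iff] <;> omega
        · exfalso; omega
      · exact ⟨n0, ⟨⟨memU _ hU, hn0⟩, hnb⟩, n1, ⟨⟨memV _ hV, hn1⟩, hVb _ hV⟩, hdec⟩

end

end Pool.Agent.Helper51.GAdic
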