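import Pool.Agent.Helper51.GAdicTwo

set_option autoImplicit false

namespace Pool.Agent.Helper51.GAdic

open Finset

variable {g : ℕ → ℕ} {W : Fin 2 → Set ℕ} {i j : Fin 2}

/-- nonzero elements of the part not containing `0` are irremovable -/
theorem ess_V (hg : IsGAdic g) (hW : IsPartition W) (hij : i ≠ j) (h0 : 0 ∈ W i)
    (hi : (W i).Infinite) {a : ℕ} (ha0 : a ≠ 0) (hl : Supp g (W j) a) :
    ¬ IsAsymptoticBasis 2 (A g W \ {a}) := by
  refine ess2 hg hW hij.symm ha0 hl hi 1 ?_
  have h1 := M_succ_notMem (g := g) (notMem_j hW hij h0)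
  have h2 := M_succ_mem (g := g) h0
  rw [M_zero, zero_add] at h1 h2
  rw [h1, h2]
  have := supp_g_sub_pos hg 0
  have h3 := hg.pos 0
  simp only [zero_add] at this ⊢
  omega

theorem claimA (hg : IsGAdic g) (hW : IsPartition W) (hij : i ≠ j)
    (hj : (W j).Infinite) {b : ℕ}
    (hb0 : b ≠ 0) (hbs : Supp g (W i) b) (hgood : Good g (W i) (W j) b) :
    IsAsymptoticBasis 2 (A g W \ {b}) := by
  rw [AB2_iff]
  obtain ⟨N2, hN2⟩ := large hg hW hij hj hbs b
  refine ⟨N2 + b + 1, fun n hn => ?_⟩
  have hdec := comp_add hg hW hij n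
  have hU := supp_comp hg (W i) n
  have hV := supp_comp hg (W j) n
  generalize comp g (W i) n = n0 at hdec hU
  generalize comp g (W j) n = n1 at hdec hV
  have memU : ∀ x, Supp g (W i) x → x ∈ A g W := by
    intro x hx
    rw [mem_A_iff hg]
    by_cases hx0 : x = 0
    · exact Or.inl hx0
    · exact Or.inr ⟨i, hx0, hx⟩
  have memV : ∀ x, Supp g (W j) x → x ∈ A g W := by
    intro x hx
    rw [mem_A_iff hg]
    by_cases hx0 : x = 0
    · exact Or.inl hx0
    · exact Or.inr ⟨j, hx0, hx⟩
  by_cases hnb : n0 = b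
  · obtain ⟨x, y, hx, hy, hxy⟩ := good_rep hg hgood hV
    obtain ⟨hx1, hy1⟩ := hN2 n1 (by omega) hV x y hx hy hxy
    refine ⟨x, ⟨memU x hx, ?_⟩, y, ⟨memU y hy, ?_⟩, by omega⟩ <;>
      simp only [Set.mem_singleton_iff] <;> omega
  · have h1b : n1 ≠ b := by
      intro h'
      have := unique2 hg hW hij (x := b) (x' := 0) (y := 0) (y' := b) hbs (Supp.zero _)
        (Supp.zero _) (h' ▸ hV) (by omega)
      exact hb0 this.1
    exact ⟨n0, ⟨memU _ hU, hnb⟩, n1, ⟨memV _ hV, h1b⟩, hdec⟩

/-- parity facts for `W i = evens` -/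
theorem even_iff (hW : IsPartition W) (hij : i ≠ j) (hE : W i = {k | Even k}) (k : ℕ) :
    k ∈ W j ↔ ¬ Even k := by
  constructor
  · intro hk he
    exact notMem_i hW hij hk (by rw [hE]; exact he)
  · intro hk
    rcases mem_or hW hij k with h | h
    · rw [hE] at h; exact absurd h hk
    · exact h

theorem evens_bad (hW : IsPartition W) (hij : i ≠ j) (hE : W i = {k | Even k})
    (h2 : ∀ k, 1 ≤ k → g (k + 1) = 2 * g k) : Bad g (W j) := by
  intro k hk
  rw [even_iff hW hij hE] at hk
  refine ⟨?_, h2 k ?_⟩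
  · rw [even_iff hW hij hE, Nat.even_add_one]
    exact fun h => h hk
  · rcases k with _ | k
    · exact absurd (by decide) hk
    · omega

theorem inf_of_even (hW : IsPartition W) (hij : i ≠ j) (hE : W i = {k | Even k}) :
    (W i).Infinite ∧ (W j).Infinite := by
  constructor
  · rw [hE]
    exact Set.infinite_of_injective_forall_mem (f := fun k : ℕ => 2 * k)
      (fun a b hab => by simpa using hab) (fun k => by simp)
  · apply Set.infinite_of_injective_forall_mem (f := fun k : ℕ => 2 * k + 1)
      (fun a b hab => by simpa using hab)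
    intro k
    rw [even_iff hW hij hE]
    simp

theorem M_even_all (hg : IsGAdic g) (hW : IsPartition W) (hij : i ≠ j) (hE : W i = {k | Even k})
    (h2 : ∀ k, g (k + 1) = 2 * g k) (t : ℕ) : M g (W j) (2 * t) = 2 * M g (W i) (2 * t) := by
  induction t with
  | zero => simp [M_zero]
  | succ t ih =>
    have h1 : 2 * t ∈ W i := by rw [hE]; simp
    have h3 : 2 * t + 1 ∈ W j := by rw [even_iff hW hij hE]; simp
    have e : 2 * (t + 1) = 2 * t + 1 + 1 := by ring
    rw [e, M_succ_mem h3, M_succ_notMem (notMem_i hW hij h3), M_succ_mem h1,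
      M_succ_notMem (notMem_j hW hij h1), h2 (2 * t + 1), h2 (2 * t), ih]
    have := hg.pos (2 * t)
    omega

theorem M_even_three (hg : IsGAdic g) (hW : IsPartition W) (hij : i ≠ j) (hE : W i = {k | Even k})
    (h3 : g 1 = 3) (h2 : ∀ k, 1 ≤ k → g (k + 1) = 2 * g k) (t : ℕ) :
    M g (W j) (2 * (t + 1)) + 1 = 2 * M g (W i) (2 * (t + 1)) := by
  induction t with
  | zero =>
    have h1 : 0 ∈ W i := by rw [hE]; simp
    have h3' : 0 + 1 ∈ W j := by rw [even_iff hW hij hE]; simp
    have e : 2 * (0 + 1) = 0 + 1 + 1 := by ring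
    rw [e, M_succ_mem h3', M_succ_notMem (notMem_i hW hij h3'), M_succ_mem h1,
      M_succ_notMem (notMem_j hW hij h1), M_zero, M_zero, h2 (0 + 1) (by norm_num), hg.zero]
    simp only [zero_add, h3]
  | succ t ih =>
    have h1 : 2 * (t + 1) ∈ W i := by rw [hE]; simp
    have h3' : 2 * (t + 1) + 1 ∈ W j := by rw [even_iff hW hij hE]; simp
    have e : 2 * (t + 1 + 1) = 2 * (t + 1) + 1 + 1 := by ring
    rw [e, M_succ_mem h3', M_succ_notMem (notMem_i hW hij h3'), M_succ_mem h1,
      M_succ_notMem (notMem_j hW hij h1), h2 (2 * (t + 1) + 1) (by omega), h2 (2 * (t + 1)) (by omega)]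
    have := hg.pos (2 * (t + 1))
    omega

/-- Case II : all digits binary and `W i` the even numbers. -/
theorem S_case_two (hg : IsGAdic g) (hW : IsPartition W) (hij : i ≠ j)
    (hE : W i = {k | Even k}) (h2 : ∀ k, g (k + 1) = 2 * g k) : S g W = {0} := by
  obtain ⟨hi, hj⟩ := inf_of_even hW hij hE
  have h0 : 0 ∈ W i := by rw [hE]; simp
  apply S_eq_singleton_zero hg hW
  intro a ha ha0
  rw [mem_A_iff hg] at ha
  rcases ha with h' | ⟨l, _, hl⟩
  · exact absurd h' ha0
  rcases two_eq hij l with rfl | rfl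
  · obtain ⟨q, hq1, hq2⟩ := exists_top hg ha0
    have hqi := hl.top_mem hg hq1 hq2 ha0
    have hqe : Even q := by rw [hE] at hqi; exact hqi
    obtain ⟨t, ht⟩ := hqe
    have ht' : q = 2 * t := by omega
    refine ess2 hg hW hij ha0 hl hj (2 * (t + 1)) ?_
    rw [M_even_all hg hW hij hE h2]
    have h1 : g (q + 1) ≤ g (2 * (t + 1)) := hg.le_of_le (by omega)
    rw [Nat.mod_eq_of_lt (by omega)]
    omega
  · exact ess_V hg hW hij h0 hi ha0 hl

/-- Case I : a violation in the part not containing `0`. -/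
theorem S_case_one (hg : IsGAdic g) (hW : IsPartition W) (hij : i ≠ j) (h0 : 0 ∈ W i)
    (hi : (W i).Infinite) (hj : (W j).Infinite)
    (hv : ∃ k ∈ W j, k + 1 ∈ W j ∨ 3 * g k ≤ g (k + 1)) : S g W = {0} := by
  obtain ⟨k, hk, hk'⟩ := hv
  apply S_eq_singleton_zero hg hW
  intro a ha ha0
  rw [mem_A_iff hg] at ha
  rcases ha with h' | ⟨l, _, hl⟩
  · exact absurd h' ha0
  rcases two_eq hij l with rfl | rfl
  · have hki := notMem_i hW hij hk
    have hlt := M_lt hg (W l) k
    have hp := hg.pos k
    rcases hk' with hk1 | hk3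
    · refine ess2 hg hW hij ha0 hl hj (k + 2) ?_
      have e1 : M g (W l) (k + 2) = M g (W l) k := by
        rw [M_succ_notMem (notMem_i hW hij hk1), M_succ_notMem hki]
      have e2 : M g (W j) (k + 2) = M g (W j) k + (g (k + 1) - g k) + (g (k + 2) - g (k + 1)) := by
        rw [M_succ_mem hk1, M_succ_mem hk]
      have h1 := hg.two_mul_le k
      have h2 := hg.two_mul_le (k + 1)
      have h3 : g (k + 1 + 1) = g (k + 2) := rfl
      rw [h3] at h2
      rw [e1, e2]
      omega
    · refine ess2 hg hW hij ha0 hl hj (k + 1) ?_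
      rw [M_succ_notMem hki, M_succ_mem hk]
      omega
  · exact ess_V hg hW hij h0 hi ha0 hl

theorem not_basis_zero_one (hg : IsGAdic g) (hW : IsPartition W) (hij : i ≠ j)
    (hE : W i = {k | Even k}) (h3 : g 1 = 3) (h2 : ∀ k, 1 ≤ k → g (k + 1) = 2 * g k) :
    ¬ IsAsymptoticBasis 2 ((A g W \ {0}) \ {1}) := by
  rw [AB2_iff]
  rintro ⟨N, hN⟩
  have h0 : 0 ∈ W i := by rw [hE]; simp
  let k := 2 * (N + 1)
  have hki : k ∈ W i := by rw [hE]; simp [k]
  have hk := hg.lt_self k
  obtain ⟨x, hx, y, hy, hxy⟩ := hN (g k + 1) (by simp only [k] at hk ⊢; omega)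
  have hMa := M_even_three hg hW hij hE h3 h2 N
  have hMb := M_add hg hW hij (2 * (N + 1))
  have hk1 : 1 < g k := by simp only [k] at hk ⊢; omega
  have hsn : Supp g (W i) (1 + g k) := by
    have h1 : Supp g (W i) 1 := by
      have := supp_g hg h0
      rw [hg.zero] at this; exact this
    exact supp_add_high hg h1 (supp_g hg hki) hk1 dvd_rfl
  have key : ∀ x y, x ∈ (A g W \ {0}) \ {1} → y ∈ (A g W \ {0}) \ {1} → x + y = g k + 1 →
      Supp g (W i) x → Supp g (W j) y → False := by
    intro x y hx hy hxy h1 h2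
    have := unique2 hg hW hij (x := x) (x' := 1 + g k) (y := y) (y' := 0) h1 hsn h2 (Supp.zero _)
      (by omega)
    exact hy.1.2 this.2
  have hx' := hx.1.1
  have hy' := hy.1.1
  rw [mem_A_iff hg] at hx' hy'
  obtain ⟨l, _, hl⟩ := hx'.resolve_left hx.1.2
  obtain ⟨l', _, hl'⟩ := hy'.resolve_left hy.1.2
  rcases two_eq hij l with rfl | rfl <;> rcases two_eq hij l' with rfl | rfl
  · -- both in `W i`
    have e1 := hl.mod_le hg k
    have e2 := hl'.mod_le hg k
    have e3 : (x + y) % g k = 1 := by
      rw [hxy, Nat.add_mod_left, Nat.mod_eq_of_lt hk1]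
    have e4 : x % g k + y % g k = 1 := by
      rw [Nat.add_mod] at e3
      rw [Nat.mod_eq_of_lt (a := x % g k + y % g k)] at e3
      · exact e3
      · simp only [k] at e1 e2 ⊢; omega
    have fin : ∀ x y, x ∈ (A g W \ {0}) \ {1} → y ∈ (A g W \ {0}) \ {1} → x + y = g k + 1 →
        x % g k = 0 → y % g k = 1 → False := by
      intro x y hx hy hxy h1 h2
      obtain ⟨m, hm⟩ := Nat.dvd_of_mod_eq_zero h1
      rcases m with _ | _ | m
      · exact hx.1.2 (by simpa using hm)
      · have : y = 1 := by simp at hm; omega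
        exact hy.2 this
      · have : g k * 2 ≤ g k * (m + 1 + 1) := Nat.mul_le_mul_left _ (by omega)
        omega
    rcases Nat.eq_zero_or_pos (x % g k) with h | h
    · exact fin x y hx hy hxy h (by omega)
    · exact fin y x hy hx (by omega) (by omega) (by omega)
  · exact key x y hx hy hxy hl hl'
  · exact key y x hy hx (by omega) hl' hl
  · -- both in `W j`
    have e1 := hl.mod_le hg 1
    have e2 := hl'.mod_le hg 1
    have e0 := M_succ_notMem (g := g) (notMem_j hW hij h0)
    rw [M_zero, zero_add] at e0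
    rw [e0] at e1 e2
    have e3 : (x + y) % g 1 = 0 := by
      have f1 : x % g 1 = 0 := by omega
      have f2 : y % g 1 = 0 := by omega
      rw [Nat.add_mod, f1, f2, Nat.add_zero, Nat.zero_mod]
    rw [hxy, h3] at e3
    have e4 : 3 ∣ g k := by
      rw [← h3]; exact hg.dvd_of_le (by simp only [k]; omega)
    omega

/-- Case III : `W i` the even numbers, `d_1 = 3`, all other `d` equal to `2`. -/
theorem S_case_three (hg : IsGAdic g) (hW : IsPartition W) (hij : i ≠ j)
    (hE : W i = {k | Even k}) (h3 : g 1 = 3) (h2 : ∀ k, 1 ≤ k → g (k + 1) = 2 * g k) :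
    S g W = {0, 1} := by
  obtain ⟨hi, hj⟩ := inf_of_even hW hij hE
  have h0 : 0 ∈ W i := by rw [hE]; simp
  have hbad := evens_bad hW hij hE h2
  have hs1 : Supp g (W i) 1 := by
    have := supp_g hg h0
    rw [hg.zero] at this; exact this
  have hgood1 : Good g (W i) (W j) 1 := by
    have := good_g hg hW hij h0 hbad h0 (Or.inr (by rw [hg.zero]; simp [h3]))
    rw [hg.zero] at this
    exact this
  have hess : ∀ a ∈ A g W, a ≠ 0 → a ≠ 1 → ¬ IsAsymptoticBasis 2 (A g W \ {a}) := by
    intro a ha ha0 ha1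
    rw [mem_A_iff hg] at ha
    rcases ha with h' | ⟨l, _, hl⟩
    · exact absurd h' ha0
    rcases two_eq hij l with rfl | rfl
    · obtain ⟨q, hq1, hq2⟩ := exists_top hg ha0
      have hqi := hl.top_mem hg hq1 hq2 ha0
      have hqe : Even q := by rw [hE] at hqi; exact hqi
      obtain ⟨t, ht⟩ := hqe
      have ht' : q = 2 * t := by omega
      refine ess2 hg hW hij ha0 hl hj (2 * (t + 1)) ?_
      rw [← M_even_three hg hW hij hE h3 h2 t]
      have h1 : g (q + 1) ≤ g (2 * (t + 1)) := hg.le_of_le (by omega)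
      rw [Nat.mod_eq_of_lt (by omega)]
      omega
    · exact ess_V hg hW hij h0 hi ha0 hl
  have hz1 := not_basis_zero_one hg hW hij hE h3 h2
  have hA1 : 1 ∈ A g W := (mem_A_iff hg 1).2 (Or.inr ⟨i, one_ne_zero, hs1⟩)
  ext a
  simp only [S, Set.mem_ofPred_eq, Set.mem_insert_iff, Set.mem_singleton_iff]
  constructor
  · rintro ⟨ha, hmin⟩
    by_contra hcon
    push Not at hcon
    exact hess a ha hcon.1 hcon.2 hmin.1
  · rintro (rfl | rfl)
    · refine ⟨(mem_A_iff hg 0).2 (Or.inl rfl), basis_diff_zero hg hW, ?_⟩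
      intro B hB hBas
      obtain ⟨hsub, hne⟩ := hB
      obtain ⟨b, hb, hbB⟩ := Set.not_subset.1 hne
      have hb0 : b ≠ 0 := fun h' => hb.2 h'
      by_cases hb1 : b = 1
      · subst hb1
        apply hz1
        apply IsAsymptoticBasis.mono _ hBas
        intro x hx
        exact ⟨hsub hx, fun h' => hbB (by rw [← (h' : x = 1)]; exact hx)⟩
      · apply hess b hb.1 hb0 hb1
        apply IsAsymptoticBasis.mono _ hBas
        intro x hx
        exact ⟨(hsub hx).1, fun h' => hbB (by rw [← (h' : x = b)]; exact hx)⟩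
    · refine ⟨hA1, claimA hg hW hij hj one_ne_zero hs1 hgood1, ?_⟩
      intro B hB hBas
      obtain ⟨hsub, hne⟩ := hB
      obtain ⟨b, hb, hbB⟩ := Set.not_subset.1 hne
      have hb1 : b ≠ 1 := fun h' => hb.2 h'
      by_cases hb0 : b = 0
      · subst hb0
        apply hz1
        apply IsAsymptoticBasis.mono _ hBas
        intro x hx
        exact ⟨⟨(hsub hx).1, fun h' => hbB (by rw [← (h' : x = 0)]; exact hx)⟩, (hsub hx).2⟩
      · apply hess b hb.1 hb0 hb1
        apply IsAsymptoticBasis.mono _ hBas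
        intro x hx
        exact ⟨(hsub hx).1, fun h' => hbB (by rw [← (h' : x = b)]; exact hx)⟩

theorem not_mem_S_of (a b : ℕ) (hb : b ∈ A g W) (hab : a ≠ b)
    (hbas : IsAsymptoticBasis 2 ((A g W \ {a}) \ {b})) : a ∉ S g W := by
  rintro ⟨_, _, hmin⟩
  refine hmin _ ⟨fun x hx => hx.1, fun hcon => ?_⟩ hbas
  exact (hcon ⟨hb, fun h' => hab (h' : b = a).symm⟩).2 rfl

/-- Remaining cases with both parts infinite. -/
theorem S_case_four (hg : IsGAdic g) (hW : IsPartition W) (hij : i ≠ j) (h0 : 0 ∈ W i)
    (hi : (W i).Infinite) (hj : (W j).Infinite) (hbad : Bad g (W j))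
    (hn2 : ¬ (W i = {k | Even k} ∧ ∀ k, g (k + 1) = 2 * g k))
    (hn3 : ¬ (W i = {k | Even k} ∧ g 1 = 3 ∧ ∀ k, 1 ≤ k → g (k + 1) = 2 * g k)) :
    S g W = ∅ := by
  have memU : ∀ x, x ≠ 0 → Supp g (W i) x → x ∈ A g W := fun x hx0 hx =>
    (mem_A_iff hg _).2 (Or.inr ⟨i, hx0, hx⟩)
  have hz : (0 : ℕ) ∈ A g W := (mem_A_iff hg 0).2 (Or.inl rfl)
  have hs1 : Supp g (W i) 1 := by
    have := supp_g hg h0
    rw [hg.zero] at this; exact this
  rw [Set.eq_empty_iff_forall_notMem]
  by_cases hI : 4 ≤ g 1 ∨ 1 ∈ W i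
  · -- `1` and `2` are removable
    have hgood2 := good_two hg hW hij h0 hbad hI
    have hgood1 : Good g (W i) (W j) 1 := by
      have := good_g hg hW hij h0 hbad h0 (by
        rw [hg.zero]
        rcases hI with h | h
        · right; simp only [zero_add]; omega
        · left; exact h)
      rw [hg.zero] at this
      exact this
    have hs2 : Supp g (W i) 2 := by
      have h2 := hg.two_mul_le 0
      rw [hg.zero] at h2
      simp only [zero_add, mul_one] at h2
      rcases Nat.lt_or_ge 2 (g 1) with h | h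
      · have := supp_mul_g hg h0 (s := 2) (by rw [hg.zero]; simpa using h)
        rw [hg.zero] at this
        simpa using this
      · have h12 : g 1 = 2 := le_antisymm h h2
        have h1 : 1 ∈ W i := by
          rcases hI with h' | h'
          · omega
          · exact h'
        have := supp_g hg h1
        rw [h12] at this
        exact this
    intro a haS
    by_cases ha0 : a = 0
    · subst ha0
      refine not_mem_S_of 0 2 (memU 2 (by norm_num) hs2) (by norm_num) ?_ haS
      apply claimC hg hW hij hj (by norm_num) hs2 hgood2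
      refine ⟨1, fun k hk hk1 => ?_⟩
      have hkk := hg.lt_self k
      have hk1' : 1 < g k := by
        have := hg.lt_self 0
        have h' := hg.mono (show 0 < k by omega)
        rw [hg.zero] at h'
        exact h'
      have hsk : Supp g (W i) (1 + g k) := supp_add_high hg hs1 (supp_g hg hk) hk1' dvd_rfl
      refine ⟨1 + g k, ⟨⟨memU _ (by omega) hsk, ?_⟩, ?_⟩, 1, ⟨⟨memU _ one_ne_zero hs1, ?_⟩, ?_⟩, by omega⟩
      · simp only [Set.mem_singleton_iff]; omega
      · simp only [Set.mem_singleton_iff]; omega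
      · simp only [Set.mem_singleton_iff]; omega
      · simp only [Set.mem_singleton_iff]; omega
    · by_cases ha1 : a = 1
      · subst ha1
        refine not_mem_S_of 1 2 (memU 2 (by norm_num) hs2) (by norm_num) ?_ haS
        exact claimB hg hW hij h0 hi hj haS.1 ha0 (by norm_num) hs2 hgood2 (by norm_num) haS.2.1
      · refine not_mem_S_of a 1 (memU 1 (by norm_num) hs1) ha1 ?_ haS
        exact claimB hg hW hij h0 hi hj haS.1 ha0 one_ne_zero hs1 hgood1 ha1 haS.2.1
  · push Not at hI
    obtain ⟨hg1, h1i⟩ := hI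
    have h1j : 1 ∈ W j := (mem_or hW hij 1).resolve_left h1i
    by_cases hII : ∃ q ∈ W i, 1 ≤ q ∧ q - 1 ∈ W j ∧ (q + 1 ∈ W i ∨ 3 * g q ≤ g (q + 1))
    · obtain ⟨q, hq, hq1, hqj, hq2⟩ := hII
      obtain ⟨m, rfl⟩ : ∃ m, q = m + 1 := ⟨q - 1, by omega⟩
      simp only [Nat.add_sub_cancel] at hqj
      have hgood := good_g hg hW hij h0 hbad hq hq2
      have hsb := supp_g hg hq
      have hb0 : g (m + 1) ≠ 0 := (hg.pos _).ne'
      have hgm : g (m + 1) = 2 * g m := (hbad m hqj).2
      have hC : IsAsymptoticBasis 2 ((A g W \ {0}) \ {g (m + 1)}) := by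
        apply claimC hg hW hij hj hb0 hsb hgood
        refine ⟨m + 3, fun k hk hkN => ?_⟩
        obtain ⟨t, rfl⟩ : ∃ t, k = t + 1 := ⟨k - 1, by omega⟩
        have hlt : g (m + 1) < g t := hg.mono (by omega)
        have hlt2 := hg.lt_succ t
        have hpos := hg.pos (m + 1)
        rcases mem_or hW hij t with ht | ht
        · -- `t ∈ W i`
          have hs' : Supp g (W i) (g (m + 1) + g t) :=
            supp_add_high hg hsb (supp_g hg ht) hlt dvd_rfl
          have h5 := supp_g_sub_pos hg t
          refine ⟨g (m + 1) + g t, ⟨⟨memU _ (by omega) hs', ?_⟩, ?_⟩, g (t + 1) - g t,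
            ⟨⟨memU _ (by omega) (supp_g_sub hg ht), ?_⟩, ?_⟩, by omega⟩
          · simp only [Set.mem_singleton_iff]; omega
          · simp only [Set.mem_singleton_iff]; omega
          · simp only [Set.mem_singleton_iff]; omega
          · simp only [Set.mem_singleton_iff]; omega
        · -- `t ∈ W j`
          have hgt : g (t + 1) = 2 * g t := (hbad t ht).2
          have hmt : g m < g t := hg.mono (by omega)
          have hs' : Supp g (W j) (g m + g t) :=
            supp_add_high hg (supp_g hg hqj) (supp_g hg ht) hmt dvd_rfl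
          have hmem : g m + g t ∈ A g W := (mem_A_iff hg _).2 (Or.inr ⟨j, by omega, hs'⟩)
          refine ⟨g m + g t, ⟨⟨hmem, ?_⟩, ?_⟩, g m + g t, ⟨⟨hmem, ?_⟩, ?_⟩, by omega⟩ <;>
            simp only [Set.mem_singleton_iff] <;> omega
      intro a haS
      by_cases ha0 : a = 0
      · subst ha0
        exact not_mem_S_of 0 (g (m + 1)) (memU _ hb0 hsb) hb0.symm hC haS
      · by_cases hab : a = g (m + 1)
        · subst hab
          refine not_mem_S_of (g (m + 1)) 0 hz hb0 ?_ haS
          have : (A g W \ {g (m + 1)}) \ {0} = (A g W \ {0}) \ {g (m + 1)} := by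
            ext x; simp only [Set.mem_sdiff, Set.mem_singleton_iff]; tauto
          rw [this]; exact hC
        · refine not_mem_S_of a (g (m + 1)) (memU _ hb0 hsb) hab ?_ haS
          exact claimB hg hW hij h0 hi hj haS.1 ha0 hb0 hsb hgood hab haS.2.1
    · -- the alternating pattern with all digits 2 except possibly the first
      exfalso
      push Not at hII
      have two_of : ∀ q, ¬ 3 * g q ≤ g (q + 1) → g (q + 1) = 2 * g q := by
        intro q hq
        have h1 := hg.two_mul_le q
        obtain ⟨d, hd⟩ := hg.dvd q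
        have hp := hg.pos q
        rw [hd] at hq h1 ⊢
        have h2 : 2 ≤ d := by
          by_contra hcon
          have : g q * d ≤ g q * 1 := Nat.mul_le_mul_left _ (by omega)
          omega
        have h3 : d ≤ 2 := by
          by_contra hcon
          have : g q * 3 ≤ g q * d := Nat.mul_le_mul_left _ (by omega)
          omega
        have : d = 2 := by omega
        rw [this]; ring
      have alt : ∀ t, 2 * t ∈ W i ∧ 2 * t + 1 ∈ W j := by
        intro t
        induction t with
        | zero => exact ⟨h0, h1j⟩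
        | succ t ih =>
          have h3 : 2 * (t + 1) ∈ W i :=
            (mem_or hW hij _).resolve_right (by
              have := (hbad _ ih.2).1
              rwa [show 2 * (t + 1) = 2 * t + 1 + 1 by ring])
          have h4 := hII (2 * (t + 1)) h3 (by omega) (by
            rw [show 2 * (t + 1) - 1 = 2 * t + 1 by omega]; exact ih.2)
          exact ⟨h3, (mem_or hW hij _).resolve_left h4.1⟩
      have hE : W i = {k | Even k} := by
        ext k
        simp only [Set.mem_ofPred_eq]
        constructor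
        · intro hk
          by_contra hodd
          rw [Nat.not_even_iff_odd] at hodd
          obtain ⟨t, rfl⟩ := hodd
          exact notMem_i hW hij (alt t).2 hk
        · rintro ⟨t, rfl⟩
          have := (alt t).1
          rwa [show t + t = 2 * t by ring]
      have h2' : ∀ k, 1 ≤ k → g (k + 1) = 2 * g k := by
        intro k hk
        rcases mem_or hW hij k with h | h
        · have h5 : k - 1 ∈ W j := by
            rw [even_iff hW hij hE]
            rw [hE] at h
            have h' : Even k := h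
            obtain ⟨t, ht⟩ := h'
            rw [Nat.not_even_iff_odd]
            exact ⟨t - 1, by omega⟩
          have := hII k h hk h5
          exact two_of k (by omega)
        · exact (hbad k h).2
      have h01 := hg.two_mul_le 0
      rw [hg.zero] at h01
      simp only [zero_add, mul_one] at h01
      have hg12 : g 1 = 2 ∨ g 1 = 3 := by omega
      rcases hg12 with h | h
      · apply hn2
        refine ⟨hE, fun k => ?_⟩
        rcases k with _ | k
        · simp [h, hg.zero]
        · exact h2' _ (by omega)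
      · exact hn3 ⟨hE, h, h2'⟩

end Pool.Agent.Helper51.GAdic
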